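import Mathlib
import Pool.Agent.U172.FE.Main

/-!
# Irreducible representations, strong irreducibility at one place above `p`, and the eigenspaces of
# the class group

Let `F ⊆ k` be number fields, `k / F` abelian of exponent dividing `p - 1` (for example `F = ℚ` and
`k = ℚ(ζ_p)`), let `A` be a Noetherian local ring of residue characteristic `p` (for example the ring of
integers of a finite extension of `ℚ_p`), and let `ρ : G_F → GL_n(A)` be a continuous representation
of any dimension, unramified outside a set `S` of primes (containing `p`), which is residually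
triangular with characters `ψ_1, ..., ψ_n` of `Gal(k/F)` on the diagonal; by the theorem of Jordan
and Hölder this means that the residual representation is unipotent on `G_k`. There is no condition
at `p` and none on Hodge-Tate weights, and `p` may be irregular.

Let `X` be a subgroup of `G_F` with `G_F = X G_k`, for example the inertia group at a prime `P` above `p`
if `p` is totally ramified in `k / F`. We say that `X` detects a character `χ` of `Gal(k/F)` if no
cyclic extension of degree `p` of `k`, unramified outside `S`, Galois over `F` with `Gal(k/F)` acting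
by `χ`, is fixed by `X ∩ G_k`. Let `X` detect the quotients `ψ_a / ψ_b`; **nothing is assumed for the other
characters of `Gal(k/F)`**.

**Theorem.**
(1) If `ρ` is potentially trivial on `X`, then `ρ` has finite image.
(2) Let `E` be any field with a homomorphism `A → E`, and `V = E ^ n`. Every subspace of `V` which is
potentially stable under `X` is potentially stable under `G_F`. If an open subgroup of `X` acts on a
subquotient of `V` by a character `χ` of `G_F` (continuous, unramified outside `S`, with residual values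
in `ℤ/p` and residually trivial on `G_k`; for example a power of the cyclotomic character), so does an
open subgroup of `G_F`. If `V` is irreducible, and if an open subgroup of `X` acts on one nonzero
vector of `V` by such a character `χ`, then `V ⊗ χ⁻¹` has finite image.
(3) Let `E` be algebraically closed of characteristic zero and let `V` be irreducible. Then `V` is
induced from a representation `W` of `G_L`, where `L / F` is a finite extension whose degree divides
`[k : F] p ^ a`, such that for every such `X` (so at all primes above `p` in the examples) the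
restriction of `W` to every subgroup of finite index of `X ∩ G_L` is irreducible. Every nonzero
subspace of `V` which is potentially stable under such an `X` has dimension at least `dim W`.
(4) Let `F = ℚ` and let `X` contain the inertia group at a prime above `p`. Then `X` detects `χ` for `S` if
`χ = 1` or `X` detects `χ` for the empty set (the class group condition), and if for every member `l`
of `S` other than `p` the character `χ` has a value other than `l` modulo `p` on a Frobenius element
at `l`.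
(5) Let `ω` be the cyclotomic character modulo `p`, `ψ_a = ω ^ (i_a)`, and let `S` be a set of primes.
Suppose that for every difference `j = i_a - i_b` we have `l ^ j ≠ l` modulo `p` for all `l` in `S` other
than `p`, and that `j` is divisible by `p - 1`, or `p ≤ 7`, or no cyclic unramified extension of degree
`p` of `ℚ(ζ_p)` belongs to `ω ^ j` (the eigenspace of the class group for `ω ^ j` is trivial). Then the
inertia groups at all primes above `p` are such subgroups `X`, and so (1), (2), (3) hold.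

Examples: (a) `S = {p}`, `p = 37`, where `37` divides the Bernoulli number `B_32` and the only nonzero
eigenspace of the class group belongs to `ω ^ 5`: all residually triangular representations of `G_ℚ` such
that `±5` modulo `36` is not a difference of the `i_a`. (b) `p = 5`, `i_a` even, `S` any set of primes that
are not `1` modulo `5`; `p = 7`, `i_a` divisible by `3`, `S` any set of primes that are not `±1` modulo `7`,
or `i_a` even, and `S` any set of primes that are `0`, `3`, `5`, `6` modulo `7`.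

So the conjecture of Fontaine and Mazur holds for the irreducible representations in this range which
potentially contain, at one place above `p`, a line with a power of the cyclotomic character: they
are Tate twists of representations with finite image. If `V` is de Rham at `p`, so is `W`, and if `W`
comes from geometry, so does `V`; so the conjecture is reduced to the representations which are
strongly irreducible at `p`. Conversely (Ribet's theorem in the other direction): an irreducible
representation of `G_ℚ`, unramified outside `p`, with a potentially stable subspace at `p` which is not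
potentially stable for `G_ℚ` (for instance a strongly irreducible one which is ordinary at `p`) forces a
nontrivial eigenspace of the class group of `ℚ(ζ_p)` for one of the quotients of its residual
characters. The example of the representation of Ramanujan's `Δ` for `p = 691`, with the residual
characters `1` and `ω ^ 11`, shows that the conditions on the eigenspaces cannot be dropped. (These
deductions are not part of the formal proof.)

The hand-in `LocalGlobalIrreducibility` is the analogous theorem if `X` detects *all* homomorphisms from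
`G_k` to `ℤ/p` which are unramified outside `S`; for `k = ℚ(ζ_p)` this requires that `p` is regular and
does not allow primes other than `p` in `S`.

Proof. Let the image of `X` modulo a power of the maximal ideal be a proper subgroup. By the theorem
of Burnside, and since `X` and `G_F` have the same image in `Gal(k/F)`, there is a nontrivial
homomorphism `f` from the finite `p`-group `ρ(G_k)` to `ℤ/p`, trivial on `X ∩ G_k` and an eigenvector for a
character `χ` of `Gal(k/F)`. If `χ` is not a quotient `ψ_a / ψ_b`, consider the filtration of the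
matrices for which `𝔪 ^ k E_ab` has degree `k n + b - a`. On the graded pieces `G_F` acts by the
characters `ψ_a / ψ_b`. For `g` in `G_k` with `ρ(g) - 1` of degree at least `s` and `σ` in `G_F` with
`e = (ψ_a/ψ_b)(σ) ≠ χ(σ)` the element `σ g σ⁻¹ g ^ (-e)` has a vanishing entry at the position `(a, b)` of
the graded piece, and `f` is multiplied by `χ(σ) - e ≠ 0`. After finitely many such steps the degree
grows, and finally `f(g) = 0`. So `χ` is a quotient `ψ_a / ψ_b`, and `f` is zero as `X` detects it. Hence the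
image of `X` is dense, and (1), (2), (3) follow as in `LocalGlobalIrreducibility`. In (4), `f` is
unramified at all primes above `p`, as they are conjugate; at `l` the tame relation `σ τ σ⁻¹ = τ ^ l`
gives `χ(σ) = l` if `f` is ramified. An invariant unramified `f` extends to `G_ℚ` by `g ↦ f(g ^ (p-1))`
up to a factor, and is trivial by the theorem of Minkowski.
-/

set_option autoImplicit false
set_option linter.unusedSectionVars false

namespace Pool.Agent.Results.MP_f68ac8_nt.EigenspaceIrreducibility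

open NumberField IsLocalRing Matrix
open scoped Pointwise

/-- an algebraic closure of `ℚ` -/
abbrev QBar : Type := AlgebraicClosure ℚ

/-- the absolute Galois group of a field `F`, with the Krull topology -/
abbrev Galois (F : Type) [Field F] : Type := Gal(AlgebraicClosure F/F)

/-- The absolute Galois group of `ℚ`. The number fields in `QBar` correspond to the open subgroups,
their absolute Galois groups. -/
abbrev AbsGal : Type := Galois ℚ

/-- the ring of all algebraic integers -/
abbrev ZBar : Type := 𝓞 QBar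

/-- the inertia group at `P`: all `τ` with `τ x - x ∈ P` for all `x` -/
noncomputable abbrev inertia (P : Ideal ZBar) : Subgroup AbsGal := P.inertia AbsGal

/-- `σ` is a Frobenius element at `P`, a prime above the prime number `l` -/
def IsFrobenius (l : ℕ) (P : Ideal ZBar) (σ : AbsGal) : Prop := ∀ x : ZBar, σ • x - x ^ l ∈ P

/-- the inertia elements at the primes which do not lie above a member of `S` -/
def OuterInertia (S : Set ℕ) : Set AbsGal :=
  {τ | ∃ P : Ideal ZBar, P.IsMaximal ∧ (∀ l ∈ S, (l : ZBar) ∉ P) ∧ τ ∈ inertia P}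

/-- `B` and `C` are the absolute Galois groups of number fields `F` and `k`, such that `k / F` is
abelian of exponent dividing `p - 1`. -/
structure Setting (p : ℕ) (B C : Subgroup AbsGal) : Prop where
  le : C ≤ B
  isOpen : IsOpen (C : Set AbsGal)
  normal : ∀ b ∈ B, ∀ c ∈ C, b * c * b⁻¹ ∈ C
  abelian : ∀ a ∈ B, ∀ b ∈ B, a * b * a⁻¹ * b⁻¹ ∈ C
  exponent : ∀ b ∈ B, b ^ (p - 1) ∈ C

/-- the conjugate of `c` by `b` -/
noncomputable def conj (b c : AbsGal) : AbsGal := b * c * b⁻¹

/-- the characters of `B` with values in the multiplicative group of `ℤ/p` -/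
abbrev Character (p : ℕ) (B : Subgroup AbsGal) : Type := B →* (ZMod p)ˣ

/-- the value of the character `χ` at `b`, as a natural number less than `p` -/
noncomputable def value {p : ℕ} {B : Subgroup AbsGal} (χ : Character p B) (b : B) : ℕ :=
  ((χ b : (ZMod p)ˣ) : ZMod p).val

/-- the character `χ` is trivial on `C` -/
def TrivialOn {p : ℕ} {B : Subgroup AbsGal} (C : Subgroup AbsGal) (χ : Character p B) : Prop :=
  ∀ σ : B, (σ : AbsGal) ∈ C → χ σ = 1

/-- the quotient of the characters `ψ a` and `ψ b` -/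
noncomputable def ratio {p : ℕ} {B : Subgroup AbsGal} {n : ℕ} (ψ : Fin n → Character p B) (a b : Fin n) :
    Character p B := ψ a * (ψ b)⁻¹

/-- the homomorphisms from `C` to `ℤ/p` (written multiplicatively) -/
abbrev HomP (p : ℕ) (C : Subgroup AbsGal) : Type := C →* Multiplicative (ZMod p)

/-- the homomorphism `f` is trivial on the elements of `Y` -/
def TrivialAt {p : ℕ} {C : Subgroup AbsGal} (f : HomP p C) (Y : Set AbsGal) : Prop :=
  ∀ τ : C, (τ : AbsGal) ∈ Y → f τ = 1

/-- `f (b c b⁻¹) = χ(b) f(c)`, in multiplicative notation -/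
def Equivariant {p : ℕ} {B C : Subgroup AbsGal} (χ : Character p B) (f : HomP p C) : Prop :=
  ∀ (b : B) (c c' : C), (c' : AbsGal) = conj b c → f c' = f c ^ value χ b

/-- `X` detects the character `χ`: every continuous homomorphism `f` from `C` to `ℤ/p` which is
unramified outside `S`, trivial on `X ∩ C` and satisfies `f(b c b⁻¹) = χ(b) f(c)` is trivial. -/
def DetectsChar (p : ℕ) (S : Set ℕ) {B : Subgroup AbsGal} (C X : Subgroup AbsGal)
    (χ : Character p B) : Prop :=
  ∀ f : HomP p C, IsOpen (f.ker : Set C) → TrivialAt f (OuterInertia S) → TrivialAt f X →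
    Equivariant χ f → ∀ g, f g = 1

/-- `X C = B`, and `X` detects all quotients of two of the characters `ψ a` -/
structure Detecting (p : ℕ) (S : Set ℕ) (B C : Subgroup AbsGal) {n : ℕ}
    (ψ : Fin n → Character p B) (X : Subgroup AbsGal) : Prop where
  surjective : ∀ b ∈ B, ∃ x ∈ X, x⁻¹ * b ∈ C
  detects : ∀ a b, DetectsChar p S C X (ratio ψ a b)

/-- `T` is a subgroup of finite index of `X`. -/
def FinIndex (T X : Subgroup AbsGal) : Prop := T ≤ X ∧ T.relIndex X ≠ 0

section rep

variable {B : Subgroup AbsGal} {A : Type} [CommRing A] {n : ℕ}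

/-- `x` is congruent to the natural number `k` modulo the maximal ideal -/
def Cong [IsLocalRing A] (x : A) (k : ℕ) : Prop := x - (k : A) ∈ maximalIdeal A

/-- the matrix `M` is triangular modulo the maximal ideal, with the numbers `d a` on the diagonal -/
def TriMod [IsLocalRing A] (M : Matrix (Fin n) (Fin n) A) (d : Fin n → ℕ) : Prop :=
  (∀ a b : Fin n, b < a → M a b ∈ maximalIdeal A) ∧ ∀ a, Cong (M a a) (d a)

/-- the matrix `M U M⁻¹` -/
def basis (M U : GL (Fin n) A) : Matrix (Fin n) (Fin n) A := (M * U * M⁻¹ : GL (Fin n) A)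

/-- After a change of basis `ρ` is triangular modulo the maximal ideal, with the characters `ψ a` on
the diagonal. -/
def Triangular [IsLocalRing A] {p : ℕ} (ψ : Fin n → Character p B)
    (ρ : B →* GL (Fin n) A) : Prop :=
  ∃ M : GL (Fin n) A, ∀ σ : B, TriMod (basis M (ρ σ)) fun a => value (ψ a) σ

/-- `ρ` is continuous, unramified outside `S` and residually triangular with the characters `ψ a`,
which are trivial on `C`. -/
structure Admissible [IsLocalRing A] [TopologicalSpace A] {p : ℕ} (S : Set ℕ)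
    (C : Subgroup AbsGal) (ψ : Fin n → Character p B) (ρ : B →* GL (Fin n) A) : Prop where
  cont : Continuous ρ
  unramified : ∀ σ : B, (σ : AbsGal) ∈ OuterInertia S → ρ σ = 1
  trivialOn : ∀ a, TrivialOn C (ψ a)
  triangular : Triangular ψ ρ

/-- The residual character of `χ` is the character `θ`. -/
def Residual [IsLocalRing A] {p : ℕ} (χ : B →* Aˣ) (θ : Character p B) : Prop :=
  ∀ σ : B, Cong (χ σ : A) (value θ σ)

/-- The character `χ` is continuous, unramified outside `S`, with residual values in `ℤ/p`, and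
residually trivial on `C`. -/
structure AdmissibleChar [IsLocalRing A] [TopologicalSpace A] (p : ℕ) (S : Set ℕ)
    (C : Subgroup AbsGal) (χ : B →* Aˣ) : Prop where
  cont : Continuous χ
  unramified : ∀ σ : B, (σ : AbsGal) ∈ OuterInertia S → χ σ = 1
  residual : ∃ θ : Character p B, TrivialOn C θ ∧ Residual χ θ

variable {E : Type} [Field E] [Algebra A E]

/-- the action of `σ` on `V = E ^ n` -/
noncomputable def act (ρ : B →* GL (Fin n) A) (σ : B) (v : Fin n → E) : Fin n → E :=
  ((ρ σ : Matrix (Fin n) (Fin n) A).map (algebraMap A E)) *ᵥ v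

/-- the subspace `W` of `V` is stable under the elements of `T` -/
def Stable (ρ : B →* GL (Fin n) A) (T : Subgroup AbsGal) (W : Submodule E (Fin n → E)) : Prop :=
  ∀ σ : B, (σ : AbsGal) ∈ T → ∀ w ∈ W, act ρ σ w ∈ W

/-- the elements of `T` stabilize `W'` and act on `W` modulo `W'` by the character `χ` -/
def ActsBy (ρ : B →* GL (Fin n) A) (χ : B →* Aˣ) (T : Subgroup AbsGal)
    (W W' : Submodule E (Fin n → E)) : Prop :=
  Stable ρ T W' ∧ ∀ σ : B, (σ : AbsGal) ∈ T → ∀ w ∈ W,
    act ρ σ w - algebraMap A E (χ σ : A) • w ∈ W'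

/-- `V` is irreducible -/
def Irreducible (E : Type) [Field E] [Algebra A E] (ρ : B →* GL (Fin n) A) : Prop :=
  n ≠ 0 ∧ ∀ W : Submodule E (Fin n → E), Stable ρ B W → W = ⊥ ∨ W = ⊤

/-- The subspace `W` of the irreducible representation `V` is stable under the open subgroup `L` of
`B`, and `[B : L] dim W = n = dim V`: `V` is induced from the representation `W` of `L`. -/
structure InducedFrom (ρ : B →* GL (Fin n) A) (L : Subgroup AbsGal) (W : Submodule E (Fin n → E)) :
    Prop where
  le : L ≤ B
  isOpen : IsOpen (L : Set AbsGal)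
  stable : Stable ρ L W
  dim : L.relIndex B * Module.finrank E W = n

/-- the representation `W` of `L` is irreducible on all subgroups of finite index of `X ∩ L` -/
def Strong (ρ : B →* GL (Fin n) A) (L X : Subgroup AbsGal)
    (W : Submodule E (Fin n → E)) : Prop :=
  ∀ T, FinIndex T (X ⊓ L) → ∀ U ≤ W, Stable ρ T U → U = ⊥ ∨ U = W

section conclusions

variable [IsLocalRing A] [TopologicalSpace A] {p : ℕ} (S : Set ℕ) (C : Subgroup AbsGal)
  (ψ : Fin n → Character p B)

/-- (1) If `ρ` is trivial on a subgroup of finite index of `X ∩ B`, then its image is finite. -/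
def FiniteImage (ρ : B →* GL (Fin n) A) : Prop :=
  ∀ X, Detecting p S B C ψ X → ∀ T, FinIndex T (X ⊓ B) →
    (∀ σ : B, (σ : AbsGal) ∈ T → ρ σ = 1) → (Set.range ρ).Finite

variable (E)

/-- (2a) Subspaces of `V` which are stable under a subgroup of finite index of `X ∩ B` are stable
under an open subgroup of `B`. -/
def StableSubspaces (ρ : B →* GL (Fin n) A) : Prop :=
  ∀ X, Detecting p S B C ψ X → ∀ T, FinIndex T (X ⊓ B) → ∀ W : Submodule E (Fin n → E),
    Stable ρ T W → ∃ L ≤ B, IsOpen (L : Set AbsGal) ∧ Stable ρ L W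

/-- (2b) If a subgroup `T` of finite index of `X ∩ B` acts on `W` modulo `W'` by a character `χ` of
`B`, so does an open subgroup of `B`. If `V` is irreducible, and if `T` acts on one vector `v ≠ 0` by
`χ`, then an open subgroup of `B` acts on all of `V` by `χ`. -/
def Characters (ρ : B →* GL (Fin n) A) : Prop :=
  ∀ χ : B →* Aˣ, AdmissibleChar p S C χ → ∀ X, Detecting p S B C ψ X →
    ∀ T, FinIndex T (X ⊓ B) →
    (∀ W W' : Submodule E (Fin n → E), ActsBy ρ χ T W W' →
      ∃ L ≤ B, IsOpen (L : Set AbsGal) ∧ ActsBy ρ χ L W W') ∧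
    (Irreducible E ρ → ∀ v : Fin n → E, v ≠ 0 →
      (∀ σ : B, (σ : AbsGal) ∈ T → act ρ σ v = algebraMap A E (χ σ : A) • v) →
      ∃ L ≤ B, IsOpen (L : Set AbsGal) ∧ ∀ σ : B, (σ : AbsGal) ∈ L → ∀ w : Fin n → E,
        act ρ σ w = algebraMap A E (χ σ : A) • w)

/-- (3) If `V` is irreducible, it is induced from a representation `W` of an open subgroup `L` of
index dividing `[B : C] p ^ a`, which is strongly irreducible on every `X`. Every nonzero subspace
`U` which is stable under a subgroup of finite index of such an `X ∩ B` has dimension at least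
`dim W`. -/
def Induction (ρ : B →* GL (Fin n) A) : Prop :=
  Irreducible E ρ → ∃ (L : Subgroup AbsGal) (W : Submodule E (Fin n → E)), W ≠ ⊥ ∧
    InducedFrom ρ L W ∧ (∃ a : ℕ, L.relIndex B ∣ C.relIndex B * p ^ a) ∧
    ∀ X, Detecting p S B C ψ X → Strong ρ L X W ∧
      ∀ U : Submodule E (Fin n → E), U ≠ ⊥ → ∀ T, FinIndex T (X ⊓ B) → Stable ρ T U →
        Module.finrank E W ≤ Module.finrank E U

variable (B)

/-- The conclusions (1), (2a), (2b), (3) hold for all admissible representations. -/
def Principle (p : ℕ) : Prop :=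
  ∀ (A : Type) [CommRing A] [IsLocalRing A] [IsNoetherianRing A] [TopologicalSpace A],
    IsAdic (maximalIdeal A) → (p : A) ∈ maximalIdeal A →
    ∀ (n : ℕ) (ψ : Fin n → Character p B) (ρ : B →* GL (Fin n) A), Admissible S C ψ ρ →
    FiniteImage S C ψ ρ ∧
    ∀ (E : Type) [Field E] [Algebra A E],
      StableSubspaces E S C ψ ρ ∧ Characters E S C ψ ρ ∧
      ∀ [IsAlgClosed E] [CharZero E], Induction E S C ψ ρ

end conclusions

end rep

/-- The absolute Galois group of `ℚ(ζ_p)`: all `τ` which fix the roots of unity of order `p`. -/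
def cyclotomic (p : ℕ) : Subgroup AbsGal where
  carrier := {τ | ∀ z : QBar, z ^ p = 1 → τ z = z}
  mul_mem' := fun {a b} ha hb z hz => by
    show a (b z) = z
    rw [hb z hz, ha z hz]
  one_mem' := fun z _ => rfl
  inv_mem' := fun {a} ha z hz => by
    apply a.injective
    rw [ha z hz]
    show (a * a⁻¹) z = z
    rw [mul_inv_cancel]
    rfl

/-- `ω` is the cyclotomic character modulo `p` of the absolute Galois group of `ℚ`. -/
def IsCyclotomic (p : ℕ) (ω : Character p ⊤) : Prop :=
  ∀ (σ : (⊤ : Subgroup AbsGal)) (z : QBar), z ^ p = 1 → (σ : AbsGal) z = z ^ value ω σ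

/-- no cyclic extension of degree `p` of `ℚ(ζ_p)` which belongs to `χ` is unramified at all finite
primes -/
def NoExtension (p : ℕ) (χ : Character p ⊤) : Prop :=
  DetectsChar p ∅ (cyclotomic p) ⊥ χ

/-- `X` contains the inertia group at a prime above `p` -/
def AboveInertia (p : ℕ) (X : Subgroup AbsGal) : Prop :=
  ∃ P : Ideal ZBar, P.IsMaximal ∧ (p : ZBar) ∈ P ∧ inertia P ≤ X

/-- the value of `χ` at some Frobenius element for `l` is not `l` modulo `p` -/
def NotLocal (p : ℕ) (χ : Character p ⊤) (l : ℕ) : Prop :=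
  ∃ Q : Ideal ZBar, Q.IsMaximal ∧ (l : ZBar) ∈ Q ∧
    ∃ σ : (⊤ : Subgroup AbsGal), IsFrobenius l Q σ ∧ ((value χ σ : ℕ) : ZMod p) ≠ (l : ZMod p)

/-- the power `ω ^ j` -/
noncomputable def power {p : ℕ} (ω : Character p ⊤) (j : ℤ) : Character p ⊤ := ω ^ j

/-- the condition of (5) for the exponent `j` -/
def GoodExponent (p : ℕ) [Fact p.Prime] (S : Set ℕ) (ω : Character p ⊤) (j : ℤ) : Prop :=
  (∀ l ∈ S, l ≠ p → (l : ZMod p) ^ j ≠ (l : ZMod p)) ∧
    (((p : ℤ) - 1 ∣ j) ∨ p ≤ 7 ∨ NoExtension p (power ω j))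

/-! ### Translation -/

section translation

variable {p : ℕ} {S : Set ℕ} {B C : Subgroup AbsGal}

theorem relIndex_sub {T X : Subgroup AbsGal} (h : FinIndex T (X ⊓ B)) (Q : Subgroup B)
    (hT : T.subgroupOf B ≤ Q) : Q.relIndex (X.subgroupOf B) ≠ 0 := by
  obtain ⟨h1, h2⟩ := h
  have h4 : (T.subgroupOf B).relIndex (X.subgroupOf B) ≠ 0 := by
    rw [← Subgroup.inf_subgroupOf_right X B, Subgroup.relIndex_subgroupOf inf_le_right]
    exact h2
  intro h5
  exact h4 (Subgroup.relIndex_eq_zero_of_le_left hT h5)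

theorem finiteIndex_trans {T X L : Subgroup AbsGal} (hLH : L ≤ B) (hL : L.relIndex B ≠ 0)
    (h : FinIndex T (X ⊓ L)) : FinIndex T (X ⊓ B) := by
  obtain ⟨h1, h2⟩ := h
  refine ⟨h1.trans (inf_le_inf_left _ hLH), ?_⟩
  have h3 : L.relIndex (X ⊓ B) ≠ 0 := fun h => hL (Subgroup.relIndex_eq_zero_of_le_right inf_le_right h)
  have h4 : X.relIndex (X ⊓ B) ≠ 0 := by
    rw [Subgroup.relIndex_eq_one.2 inf_le_left]
    exact one_ne_zero
  exact Subgroup.relIndex_ne_zero_trans h2 (Subgroup.relIndex_inf_ne_zero h4 h3)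

theorem translate {L : Subgroup B} : (L.map B.subtype).subgroupOf B = L :=
  Subgroup.comap_map_eq_self_of_injective B.subtype_injective L

theorem isOpen_translate (hB : IsOpen (B : Set AbsGal)) {L : Subgroup B} (hL : IsOpen (L : Set B)) :
    IsOpen ((L.map B.subtype : Subgroup AbsGal) : Set AbsGal) := by
  rw [Subgroup.coe_map]
  exact hB.isOpenMap_subtype_val _ hL

section twist

variable {A : Type} [CommRing A] [IsLocalRing A] [IsNoetherianRing A] {n : ℕ} {E : Type} [Field E]
  [Algebra A E]

theorem smul_inv (χ : B →* Aˣ) (σ : B) (v : Fin n → E) :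
    algebraMap A E ((χ σ : Aˣ) : A) • algebraMap A E (((χ σ)⁻¹ : Aˣ) : A) • v = v := by
  rw [smul_smul, ← map_mul, Units.mul_inv, map_one, one_smul]

theorem inv_smul' (χ : B →* Aˣ) (σ : B) (v : Fin n → E) :
    algebraMap A E (((χ σ)⁻¹ : Aˣ) : A) • algebraMap A E ((χ σ : Aˣ) : A) • v = v := by
  rw [smul_smul, ← map_mul, Units.inv_mul, map_one, one_smul]

theorem actsBy_span {ρ : B →* GL (Fin n) A} {χ : B →* Aˣ} {T : Subgroup AbsGal} {v : Fin n → E}
    (h : ∀ σ : B, (σ : AbsGal) ∈ T → act ρ σ v = algebraMap A E (χ σ : A) • v) :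
    ActsBy ρ χ T (Submodule.span E {v}) ⊥ := by
  refine ⟨fun σ _ w hw => ?_, fun σ hσ w hw => ?_⟩
  · rw [Submodule.mem_bot] at hw ⊢
    rw [hw]
    exact map_zero (Pool.Agent.U172.FM.act E ρ σ)
  · obtain ⟨c, rfl⟩ := Submodule.mem_span_singleton.1 hw
    have h1 : act ρ σ (c • v) = c • act ρ σ v := map_smul (Pool.Agent.U172.FM.act E ρ σ) c v
    rw [Submodule.mem_bot, h1, h σ hσ, smul_comm, sub_self]

theorem actsBy_le {ρ : B →* GL (Fin n) A} {χ : B →* Aˣ} {T : Subgroup AbsGal}
    {W W' : Submodule E (Fin n → E)} (h : ActsBy ρ χ T W W') :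
    T.subgroupOf B ≤ Pool.Agent.U172.FM.fixq (Pool.Agent.U172.FM.tw ρ χ) W W' := by
  intro σ hσ
  refine ⟨?_, fun w hw => ?_⟩
  · refine Pool.Agent.U172.FM.le_stb (D := T.subgroupOf B) (fun g hg w hw => ?_) hσ
    rw [Pool.Agent.U172.FM.tw_act]
    exact W'.smul_mem _ (h.1 g hg w hw)
  · have h1 := W'.smul_mem (algebraMap A E (((χ σ)⁻¹ : Aˣ) : A)) (h.2 σ hσ w hw)
    rw [smul_sub, inv_smul'] at h1
    rw [Pool.Agent.U172.FM.tw_act]
    exact h1

theorem le_actsBy {ρ : B →* GL (Fin n) A} {χ : B →* Aˣ} {L : Subgroup B}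
    {W W' : Submodule E (Fin n → E)}
    (h : L ≤ Pool.Agent.U172.FM.fixq (Pool.Agent.U172.FM.tw ρ χ) W W') :
    ActsBy ρ χ (L.map B.subtype) W W' := by
  refine ⟨fun σ hσ w hw => ?_, fun σ hσ w hw => ?_⟩
  · obtain ⟨τ, hτ, hτσ⟩ := hσ
    have e : τ = σ := Subtype.ext hτσ
    subst e
    have h1 := ((h hτ).1 w).1 hw
    rw [Pool.Agent.U172.FM.tw_act] at h1
    have h2 := W'.smul_mem (algebraMap A E ((χ τ : Aˣ) : A)) h1
    rwa [smul_inv] at h2
  · obtain ⟨τ, hτ, hτσ⟩ := hσ
    have e : τ = σ := Subtype.ext hτσ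
    subst e
    have h1 := (h hτ).2 w hw
    rw [Pool.Agent.U172.FM.tw_act] at h1
    have h2 := W'.smul_mem (algebraMap A E ((χ τ : Aˣ) : A)) h1
    rwa [smul_sub, smul_inv] at h2

/-- the twist is residually triangular -/
theorem tri_tw [Fact p.Prime] (hpA : (p : A) ∈ maximalIdeal A) {ρ : B →* GL (Fin n) A}
    {χ : B →* Aˣ} {ψ : Fin n → B →* (ZMod p)ˣ} {M : GL (Fin n) A}
    (hT : Pool.Agent.U172.FE.Tri p ψ (Pool.Agent.U172.FE.cj M ρ)) {θ : B →* (ZMod p)ˣ}
    (hθ : ∀ σ : B, (χ σ : A) - ((((θ σ : (ZMod p)ˣ) : ZMod p).val : ℕ) : A) ∈ maximalIdeal A) :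
    Pool.Agent.U172.FE.Tri p (fun a => ψ a * θ⁻¹)
      (Pool.Agent.U172.FE.cj M (Pool.Agent.U172.FM.tw ρ χ)) := by
  have hval : ∀ σ : B, ((Pool.Agent.U172.FE.cj M (Pool.Agent.U172.FM.tw ρ χ) σ : GL (Fin n) A) :
      Matrix (Fin n) (Fin n) A) = (((χ σ)⁻¹ : Aˣ) : A) •
        ((Pool.Agent.U172.FE.cj M ρ σ : GL (Fin n) A) : Matrix (Fin n) (Fin n) A) := by
    intro σ
    rw [Pool.Agent.U172.FE.cj_apply, Pool.Agent.U172.FE.cj_apply, Units.val_mul, Units.val_mul,
      Units.val_mul, Units.val_mul, Pool.Agent.U172.FM.tw_val, Matrix.mul_smul, Matrix.smul_mul]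
  refine ⟨fun σ a b hab => ?_, fun σ a => ?_⟩
  · rw [hval, Matrix.smul_apply, smul_eq_mul]
    exact Ideal.mul_mem_left _ _ (hT.low σ a b hab)
  · rw [hval, Matrix.smul_apply, smul_eq_mul]
    -- modulo the maximal ideal
    set x := ((Pool.Agent.U172.FE.cj M ρ σ : GL (Fin n) A) : Matrix (Fin n) (Fin n) A) a a with hx
    have h1 := hT.diag σ a
    rw [← hx] at h1
    have h2 := hθ σ
    set c : A := (((χ σ)⁻¹ : Aˣ) : A) with hc
    set d : A := ((χ σ : Aˣ) : A) with hd
    have hcd : c * d = 1 := by rw [hc, hd, Units.inv_mul]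
    set P1 : ℕ := ((ψ a σ : (ZMod p)ˣ) : ZMod p).val with hP1
    set P2 : ℕ := ((θ σ : (ZMod p)ˣ) : ZMod p).val with hP2
    set P3 : ℕ := ((((ψ a * θ⁻¹) σ : (ZMod p)ˣ) : ZMod p)).val with hP3
    have h3 : (P1 : A) - ((P3 * P2 : ℕ) : A) ∈ maximalIdeal A := by
      refine Pool.Agent.U172.FE.cast_sub_mem hpA ?_
      rw [Nat.cast_mul, hP1, hP2, hP3, ZMod.natCast_zmod_val, ZMod.natCast_zmod_val,
        ZMod.natCast_zmod_val, MonoidHom.mul_apply, MonoidHom.inv_apply, ← Units.val_mul,
        inv_mul_cancel_right]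
    rw [Nat.cast_mul] at h3
    have e : c * x - (P3 : A) = c * (x - (P1 : A)) + c * ((P1 : A) - (P3 : A) * (P2 : A)) -
        (c * (P3 : A)) * (d - (P2 : A)) := by
      linear_combination (P3 : A) * hcd
    rw [e]
    exact sub_mem (add_mem (Ideal.mul_mem_left _ _ h1) (Ideal.mul_mem_left _ _ h3))
      (Ideal.mul_mem_left _ _ h2)

end twist

theorem tri_of {A : Type} [CommRing A] [IsLocalRing A] {n : ℕ} [Fact p.Prime]
    {ρ : B →* GL (Fin n) A} {ψ : Fin n → Character p B} (h : Triangular ψ ρ) :
    ∃ M : GL (Fin n) A, Pool.Agent.U172.FE.Tri p ψ (Pool.Agent.U172.FE.cj M ρ) := by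
  obtain ⟨M, hM⟩ := h
  exact ⟨M, fun σ a b hab => (hM σ).1 a b hab, fun σ a => (hM σ).2 a⟩

/-- the general theorem -/
theorem general [hp : Fact p.Prime] (hSet : Setting p B C) (A : Type) [CommRing A]
    [IsLocalRing A] [IsNoetherianRing A] [TopologicalSpace A] (hA : IsAdic (maximalIdeal A))
    (hpA : (p : A) ∈ maximalIdeal A) (n : ℕ) (ψ : Fin n → B →* (ZMod p)ˣ)
    (ρ : B →* GL (Fin n) A) (hρ : Admissible S C ψ ρ) :
    FiniteImage S C ψ ρ ∧
    ∀ (E : Type) [Field E] [Algebra A E],
      StableSubspaces E S C ψ ρ ∧ Characters E S C ψ ρ ∧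
      ∀ [IsAlgClosed E] [CharZero E], Induction E S C ψ ρ := by
  obtain ⟨M, hM⟩ := tri_of hρ.triangular
  have hBo : IsOpen (B : Set AbsGal) := Subgroup.isOpen_mono hSet.le hSet.isOpen
  -- the local-global principle for the twists
  have hLG : ∀ X, Detecting p S B C ψ X → Pool.Agent.U172.FE.LG ρ (X.subgroupOf B) := by
    intro X hX
    exact Pool.Agent.U172.FE.lg (R := Pool.Agent.U172.FM.outer S) hSet.le hSet.isOpen hSet.normal
      hSet.abelian hSet.exponent hA hpA hρ.cont hM hρ.trivialOn hρ.unramified hX.surjective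
      (fun a c f h1 h2 h3 h4 => hX.detects a c f h1 h2 h3 h4)
  have hLG' : ∀ X, Detecting p S B C ψ X → ∀ χ : B →* Aˣ, AdmissibleChar p S C χ →
      Pool.Agent.U172.FE.LG (Pool.Agent.U172.FM.tw ρ χ) (X.subgroupOf B) := by
    intro X hX χ hχ
    obtain ⟨θ, hθ1, hθ2⟩ := hχ.residual
    refine Pool.Agent.U172.FE.lg (R := Pool.Agent.U172.FM.outer S) hSet.le hSet.isOpen hSet.normal
      hSet.abelian hSet.exponent hA hpA (Pool.Agent.U172.FM.tw_cont hA hρ.cont hχ.cont)
      (tri_tw hpA hM hθ2) (fun a c hc => ?_) (fun g hg => ?_) hX.surjective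
      (fun a c f h1 h2 h3 h4 => hX.detects a c f h1 h2 h3 fun b x x' hx => ?_)
    · rw [MonoidHom.mul_apply, MonoidHom.inv_apply, hρ.trivialOn a c hc, hθ1 c hc, inv_one, mul_one]
    · show Pool.Agent.U172.FM.sc A n (χ g)⁻¹ * ρ g = 1
      rw [hχ.unramified g hg, hρ.unramified g hg, inv_one, map_one, one_mul]
    · rw [h4 b x x' hx]
      have e : ψ a * θ⁻¹ * (ψ c * θ⁻¹)⁻¹ = ψ a * (ψ c)⁻¹ := by
        refine MonoidHom.ext fun b => ?_
        show (ψ a b * (θ b)⁻¹) * (ψ c b * (θ b)⁻¹)⁻¹ = ψ a b * (ψ c b)⁻¹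
        rw [_root_.mul_inv, inv_inv, mul_assoc, mul_comm (ψ c b)⁻¹, inv_mul_cancel_left]
      rw [e]
      rfl
  have hStab : ∀ (E : Type) [Field E] [Algebra A E], ∀ X, Detecting p S B C ψ X → ∀ T,
      FinIndex T (X ⊓ B) → ∀ W : Submodule E (Fin n → E), Stable ρ T W →
      ∃ m, Pool.Agent.U172.FM.cong ρ m ≤ Pool.Agent.U172.FM.stb ρ W := by
    intro E _ _ X hX T hT W hW
    exact (hLG X hX).stab W
      (relIndex_sub hT _ (Pool.Agent.U172.FM.le_stb fun g hg w hw => hW g hg w hw))
  refine ⟨fun X hX T hT h => ?_, fun E _ _ => ⟨fun X hX T hT W hW => ?_,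
    fun χ hχ X hX T hT => ⟨fun W W' hW => ?_, fun hirr v hv hW => ?_⟩, ?_⟩⟩
  · refine (hLG X hX).triv (relIndex_sub hT _ fun g hg => ?_)
    exact (MonoidHom.mem_ker).2 (h g hg)
  · obtain ⟨m, hm⟩ := hStab E X hX T hT W hW
    refine ⟨(Pool.Agent.U172.FM.cong ρ m).map B.subtype, Subgroup.map_subtype_le _,
      isOpen_translate hBo (Pool.Agent.U172.FM.cong_open hA hρ.cont m), ?_⟩
    intro σ hσ w hw
    obtain ⟨τ, hτ, hτσ⟩ := hσ
    have e : τ = σ := Subtype.ext hτσ
    subst e
    exact ((hm hτ) w).1 hw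
  · obtain ⟨m, hm⟩ := (hLG' X hX χ hχ).fix W W' (relIndex_sub hT _ (actsBy_le hW))
    exact ⟨_, Subgroup.map_subtype_le _, isOpen_translate hBo (Pool.Agent.U172.FM.cong_open hA
      (Pool.Agent.U172.FM.tw_cont hA hρ.cont hχ.cont) m), le_actsBy hm⟩
  · obtain ⟨m, hm⟩ := (hLG' X hX χ hχ).vec hv (fun W hW => hirr.2 W fun σ _ w hw => by
        have h1 := hW σ w hw
        rw [Pool.Agent.U172.FM.tw_act] at h1
        have h2 := W.smul_mem (algebraMap A E ((χ σ : Aˣ) : A)) h1
        rwa [smul_inv] at h2)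
      (relIndex_sub hT _ (actsBy_le (actsBy_span hW)))
    refine ⟨_, Subgroup.map_subtype_le _, isOpen_translate hBo (Pool.Agent.U172.FM.cong_open hA
      (Pool.Agent.U172.FM.tw_cont hA hρ.cont hχ.cont) m), fun σ hσ w => ?_⟩
    obtain ⟨τ, hτ, hτσ⟩ := hσ
    have e : τ = σ := Subtype.ext hτσ
    subst e
    have h1 := hm τ hτ w
    rw [Pool.Agent.U172.FM.tw_act] at h1
    have h2 := congrArg (algebraMap A E ((χ τ : Aˣ) : A) • ·) h1
    change algebraMap A E ((χ τ : Aˣ) : A) • algebraMap A E (((χ τ)⁻¹ : Aˣ) : A) •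
      Pool.Agent.U172.FM.act E ρ τ w = algebraMap A E ((χ τ : Aˣ) : A) • w at h2
    rwa [smul_inv] at h2
  · intro _ _ hirr
    have hres : ∀ g : B, (g : AbsGal) ∈ C → ∃ N : ℕ, Pool.Agent.U172.FM.InI (maximalIdeal A)
        (((ρ g : Matrix (Fin n) (Fin n) A) - 1) ^ N) := by
      intro g hg
      obtain ⟨N, hN⟩ := hM.res (g := g) fun a => hρ.trivialOn a g hg
      refine ⟨N, Pool.Agent.U172.FE.inI_conj M ?_⟩
      have e : ∀ k : ℕ, (((Pool.Agent.U172.FE.cj M ρ g : GL (Fin n) A) : Matrix (Fin n) (Fin n) A) - 1) ^ k =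
          (M : Matrix (Fin n) (Fin n) A) * ((ρ g : Matrix (Fin n) (Fin n) A) - 1) ^ k *
            ((M⁻¹ : GL (Fin n) A) : Matrix (Fin n) (Fin n) A) := by
        have hMM : (M : Matrix (Fin n) (Fin n) A) * ((M⁻¹ : GL (Fin n) A) : Matrix (Fin n) (Fin n) A) =
            1 := by rw [← Units.val_mul, mul_inv_cancel, Units.val_one]
        have hMM' : ((M⁻¹ : GL (Fin n) A) : Matrix (Fin n) (Fin n) A) * (M : Matrix (Fin n) (Fin n) A) =
            1 := by rw [← Units.val_mul, inv_mul_cancel, Units.val_one]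
        have h1 : ((Pool.Agent.U172.FE.cj M ρ g : GL (Fin n) A) : Matrix (Fin n) (Fin n) A) - 1 =
            (M : Matrix (Fin n) (Fin n) A) * ((ρ g : Matrix (Fin n) (Fin n) A) - 1) *
              ((M⁻¹ : GL (Fin n) A) : Matrix (Fin n) (Fin n) A) := by
          rw [Pool.Agent.U172.FE.cj_apply, Units.val_mul, Units.val_mul, mul_sub, sub_mul, mul_one, hMM]
        intro k
        induction k with
        | zero => rw [pow_zero, pow_zero, mul_one, hMM]
        | succ k ih =>
          rw [pow_succ, ih, h1, pow_succ]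
          calc _ = (M : Matrix (Fin n) (Fin n) A) * ((ρ g : Matrix (Fin n) (Fin n) A) - 1) ^ k *
                (((M⁻¹ : GL (Fin n) A) : Matrix (Fin n) (Fin n) A) * (M : Matrix (Fin n) (Fin n) A)) *
                ((ρ g : Matrix (Fin n) (Fin n) A) - 1) *
                ((M⁻¹ : GL (Fin n) A) : Matrix (Fin n) (Fin n) A) := by simp only [mul_assoc]
            _ = _ := by rw [hMM', mul_one]; simp only [mul_assoc]
      rw [← e]
      exact hN
    have hPE : Pool.Agent.U172.FM.PExt p (∅ : Set AbsGal) C C :=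
      ⟨le_rfl, hSet.isOpen, fun c hc u hu => C.mul_mem (C.mul_mem hc hu) (C.inv_mem hc),
        fun c hc => ⟨0, by rw [pow_zero, pow_one]; exact hc⟩, fun τ _ h => absurd h (Set.notMem_empty τ)⟩
    obtain ⟨L, W, hLo, hW0, hLW, hdim, hidx, hstr, hmin⟩ := Pool.Agent.U172.FM.indStr hPE hSet.le
      le_rfl hSet.le hSet.normal hSet.abelian hSet.exponent hA hpA hρ.cont hres (E := E) hirr.1
      (fun W hW => hirr.2 W fun σ _ w hw => hW σ w hw)
    have hrel : (L.map B.subtype).relIndex B = L.index := by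
      rw [Subgroup.relIndex, translate]
    refine ⟨L.map B.subtype, W, hW0, ⟨Subgroup.map_subtype_le _, isOpen_translate hBo hLo, ?_, ?_⟩,
      ?_, fun X hX => ⟨fun T hT U' hU' hs => ?_, fun U' hU' T hT hs => ?_⟩⟩
    · intro σ hσ w hw
      obtain ⟨τ, hτ, hτσ⟩ := hσ
      have e : τ = σ := Subtype.ext hτσ
      subst e
      exact hLW τ hτ w hw
    · rw [hrel]
      exact hdim
    · rw [hrel]
      exact hidx
    · have hLf : (L.map B.subtype).relIndex B ≠ 0 := by
        rw [hrel]
        have hHc : CompactSpace B := isCompact_iff_compactSpace.1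
          (Subgroup.isClosed_of_isOpen _ hBo).isCompact
        exact (Pool.Agent.U172.FM.finIdx_of_open hLo).index_ne_zero
      obtain ⟨m, hm⟩ := hStab E X hX T (finiteIndex_trans (Subgroup.map_subtype_le _) hLf hT) U' hs
      exact hstr (Pool.Agent.U172.FM.stb ρ U') ⟨m, hm⟩ U' hU' (fun t ht u hu => ((ht.1) u).1 hu)
    · obtain ⟨m, hm⟩ := hStab E X hX T hT U' hs
      exact hmin U' hU' ⟨m, hm⟩

/-- **detection over the rational numbers** -/
theorem detects_rational (hp : p.Prime) (hSet : Setting p ⊤ C) {X : Subgroup AbsGal}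
    (hX : AboveInertia p X) (χ : Character p ⊤)
    (hS : ∀ l ∈ S, l.Prime ∧ (l ≠ p → NotLocal p χ l))
    (h : χ = 1 ∨ DetectsChar p ∅ C X χ) : DetectsChar p S C X χ := by
  have : Fact p.Prime := ⟨hp⟩
  obtain ⟨P, hP, hpP, hX⟩ := hX
  intro f hf h1 h2 h3
  have hC : ∀ g : AbsGal, ∀ c ∈ C, g * c * g⁻¹ ∈ C := fun g c hc => hSet.normal g trivial c hc
  have hunr : ∀ P' : Ideal ZBar, P'.IsMaximal → ∀ τ : C,
      Pool.Agent.W569.FM.InInertia P' (τ : AbsGal) → f τ = 1 := by
    intro P' hP' τ hτ
    exact Pool.Agent.U172.FE.unr_all hC hp hSet.isOpen hP hpP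
      (fun g => ((χ ⟨g, trivial⟩ : (ZMod p)ˣ) : ZMod p)) (S := S)
      (fun l hl => ⟨(hS l hl).1, fun hlp => by
        obtain ⟨Q, hQ, hlQ, σ, hσ, hχ⟩ := (hS l hl).2 hlp
        refine ⟨Q, hQ, hlQ, σ, hσ, ?_⟩
        rw [value, ZMod.natCast_zmod_val] at hχ
        exact hχ⟩) f hf h1 (fun τ hτ => h2 τ (hX hτ))
      (fun b c c' hc => h3 ⟨b, trivial⟩ c c' hc) P' hP' τ hτ
  rcases h with h | h
  · refine Pool.Agent.U172.FE.no_triv hC hp hSet.isOpen (fun a b => hSet.abelian a trivial b trivial)
      (fun b => hSet.exponent b trivial) f hf hunr fun b c c' hc => ?_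
    have h4 := h3 ⟨b, trivial⟩ c c' hc
    rw [value, h, MonoidHom.one_apply, Units.val_one, ZMod.val_one, pow_one] at h4
    exact h4
  · refine h f hf (fun τ hτ => ?_) h2 h3
    obtain ⟨P', hP', -, hτ'⟩ := hτ
    exact hunr P' hP' τ hτ'

theorem cyclotomic_eq (p : ℕ) : cyclotomic p = Pool.Agent.W569.UF.HH p := by
  ext τ
  rw [Pool.Agent.W569.UF.mem_HH]
  rfl

theorem cyclotomic_setting (hp : p.Prime) : Setting p ⊤ (cyclotomic p) where
  le := le_top
  isOpen := by
    rw [cyclotomic_eq]
    exact Pool.Agent.W569.UF.isOpen_HH hp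
  normal := fun b _ c hc => by
    rw [cyclotomic_eq] at hc ⊢
    exact (Pool.Agent.W569.UF.normal_HH p).conj_mem c hc b
  abelian := fun a _ b _ => by
    rw [cyclotomic_eq]
    exact Pool.Agent.U172.FM.comm_HH hp a b
  exponent := fun b _ => by
    rw [cyclotomic_eq]
    exact Pool.Agent.U172.FM.pow_HH hp b

/-- the value on a Frobenius element -/
theorem cyc_frob (hp : p.Prime) {ω : Character p ⊤}
    (hω : IsCyclotomic p ω) {l : ℕ} (hl : l.Prime) (hlp : l ≠ p) {Q : Ideal ZBar}
    (hQ : Q.IsMaximal) (hlQ : (l : ZBar) ∈ Q) {σ : (⊤ : Subgroup AbsGal)}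
    (hσ : IsFrobenius l Q σ) : ((ω σ : (ZMod p)ˣ) : ZMod p) = (l : ZMod p) := by
  have : Fact p.Prime := ⟨hp⟩
  have hp0 : NeZero (p : AlgebraicClosure ℚ) := ⟨by exact_mod_cast hp.ne_zero⟩
  obtain ⟨ζ, hζ⟩ := HasEnoughRootsOfUnity.exists_primitiveRoot (AlgebraicClosure ℚ) p
  have h1 := hω σ ζ hζ.pow_eq_one
  have h2 := Pool.Agent.W924.UF.zeta.1 p l hp hl (Ne.symm hlp) Q hQ hlQ (σ : AbsGal) hσ ζ hζ.pow_eq_one
  have h4 : ζ ^ (((ω σ : (ZMod p)ˣ) : ZMod p).val) = ζ ^ l := h1.symm.trans h2
  have h5 : ((((ω σ : (ZMod p)ˣ) : ZMod p).val : ℕ) : ZMod p) = (l : ZMod p) := by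
    have h6 : ζ ^ l = ζ ^ (l % p) := by
      conv_lhs => rw [← Nat.mod_add_div l p, pow_add, pow_mul, hζ.pow_eq_one, one_pow, mul_one]
    rw [h6] at h4
    have h7 := hζ.pow_inj (ZMod.val_lt _) (Nat.mod_lt _ hp.pos) h4
    rw [h7, ZMod.natCast_mod]
  rwa [ZMod.natCast_zmod_val] at h5

/-- **inertia groups at `p`, for `k = ℚ(ζ_p)`** -/
theorem detecting_cyclotomic [hp : Fact p.Prime] {ω : Character p ⊤}
    (hω : IsCyclotomic p ω) {n : ℕ} (i : Fin n → ℤ) (hS : ∀ l ∈ S, l.Prime)
    (hi : ∀ a b : Fin n, GoodExponent p S ω (i a - i b))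
    {X : Subgroup AbsGal} (hX : AboveInertia p X) :
    Detecting p S ⊤ (cyclotomic p) (fun a => power ω (i a)) X := by
  refine ⟨fun b _ => ?_, fun a b => ?_⟩
  · obtain ⟨P, hP, hpP, hX⟩ := hX
    obtain ⟨t, ht, hth⟩ := Pool.Agent.W398.UH.main p hp.out P hP hpP b
    refine ⟨t, hX ht, ?_⟩
    rw [cyclotomic_eq]
    exact hth
  · obtain ⟨h1, h2⟩ := hi a b
    have e : ω ^ i a * (ω ^ i b)⁻¹ = ω ^ (i a - i b) := by
      refine MonoidHom.ext fun σ => ?_
      show ω σ ^ i a * (ω σ ^ i b)⁻¹ = ω σ ^ (i a - i b)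
      rw [_root_.zpow_sub]
    show DetectsChar p S (cyclotomic p) X (ω ^ i a * (ω ^ i b)⁻¹)
    rw [e]
    refine detects_rational hp.out (cyclotomic_setting hp.out) hX _ (fun l hl => ⟨hS l hl,
      fun hlp => ?_⟩) ?_
    · obtain ⟨⟨Q, hQ, hlQ, σ, hσ⟩, -⟩ := Pool.Agent.W571.FM.main l (hS l hl)
      refine ⟨Q, hQ, hlQ, ⟨σ, trivial⟩, hσ, ?_⟩
      have h3 := cyc_frob hp.out hω (hS l hl) hlp hQ hlQ (σ := ⟨σ, trivial⟩) hσ
      have h4 : (((ω ^ (i a - i b)) ⟨σ, trivial⟩ : (ZMod p)ˣ) : ZMod p) =
          (((ω ⟨σ, trivial⟩ : (ZMod p)ˣ) : ZMod p)) ^ (i a - i b) := by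
        have h5 : (ω ^ (i a - i b)) ⟨σ, trivial⟩ = (ω ⟨σ, trivial⟩) ^ (i a - i b) := rfl
        rw [h5, Units.val_zpow_eq_zpow_val]
      rw [value, ZMod.natCast_zmod_val, h4, h3]
      exact h1 l hl hlp
    · rcases h2 with h2 | h2 | h2
      · left
        obtain ⟨t, ht⟩ := h2
        rw [ht]
        refine MonoidHom.ext fun σ => ?_
        show ω σ ^ (((p : ℤ) - 1) * t) = 1
        have h4 : ((p : ℤ) - 1) = ((p - 1 : ℕ) : ℤ) := by
          rw [Nat.cast_sub hp.out.one_lt.le, Nat.cast_one]
        rw [h4, _root_.zpow_mul, zpow_natCast, ZMod.units_pow_card_sub_one_eq_one, _root_.one_zpow]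
      · right
        intro f hf h3 _ _
        have h4 := Pool.Agent.W569.UF.reg p hp.out h2
        have key : ∀ (D : Subgroup AbsGal), D = Pool.Agent.W569.UF.HH p →
            ∀ f : D →* Multiplicative (ZMod p), IsOpen (f.ker : Set D) →
            (∀ τ : D, (τ : AbsGal) ∈ OuterInertia ∅ → f τ = 1) → ∀ g, f g = 1 := by
          rintro D rfl f hf h3
          exact h4 f hf fun P' hP' τ hτ => h3 τ ⟨P', hP', fun l hl => absurd hl (Set.notMem_empty l), hτ⟩
        exact key _ (cyclotomic_eq p) f hf h3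
      · right
        intro f hf h3 _ h5
        refine h2 f hf h3 (fun τ hτ => ?_) h5
        have e : τ = 1 := Subtype.ext hτ
        rw [e, map_one]

/-- the cyclotomic character exists -/
theorem exists_cyc (hp : p.Prime) :
    ∃ ω : Character p ⊤, IsCyclotomic p ω := by
  have : Fact p.Prime := ⟨hp⟩
  have hp0 : NeZero (p : AlgebraicClosure ℚ) := ⟨by exact_mod_cast hp.ne_zero⟩
  have hpn : NeZero p := ⟨hp.ne_zero⟩
  obtain ⟨ζ, hζ⟩ := HasEnoughRootsOfUnity.exists_primitiveRoot (AlgebraicClosure ℚ) p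
  have hn : Nat.card (rootsOfUnity p (AlgebraicClosure ℚ)) = p := hζ.card_rootsOfUnity
  refine ⟨((modularCyclotomicCharacter (AlgebraicClosure ℚ) hn).comp
    (MulSemiringAction.toRingAut AbsGal (AlgebraicClosure ℚ))).comp (⊤ : Subgroup AbsGal).subtype,
    fun σ z hz => ?_⟩
  have hz0 : z ≠ 0 := by
    rintro rfl
    rw [zero_pow hp.ne_zero] at hz
    exact zero_ne_one hz
  have ht : (Units.mk0 z hz0) ∈ rootsOfUnity p (AlgebraicClosure ℚ) := by
    rw [mem_rootsOfUnity]
    apply Units.ext
    rw [Units.val_pow_eq_pow_val, Units.val_mk0, Units.val_one]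
    exact hz
  have h := modularCyclotomicCharacter.spec (AlgebraicClosure ℚ) hn
    (MulSemiringAction.toRingAut AbsGal (AlgebraicClosure ℚ) (σ : AbsGal)) ht
  have h2 : (MulSemiringAction.toRingAut AbsGal (AlgebraicClosure ℚ) (σ : AbsGal))
    ((Units.mk0 z hz0 : (AlgebraicClosure ℚ)ˣ) : AlgebraicClosure ℚ) = (σ : AbsGal) z := rfl
  rw [h2] at h
  rw [h]
  rfl

end translation

/-- Irreducible residually triangular representations of `G_F`, unramified outside `S`, are induced
from representations which are strongly irreducible on all subgroups `X` which detect the quotients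
of the residual characters; potentially trivial representations are finite, and potentially stable
subspaces are potentially stable under the whole group. For `F = ℚ` the subgroups which contain the
inertia group at a prime above `p` detect all characters for which the eigenspace of the class group
is trivial and which do not take the value `l` at `l`. -/
theorem result :
    (∀ (p : ℕ) [Fact p.Prime] (S : Set ℕ) (B C : Subgroup AbsGal), Setting p B C →
      Principle B S C p) ∧
    -- detection for `F = ℚ`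
    (∀ (p : ℕ) (S : Set ℕ) (C : Subgroup AbsGal), p.Prime → Setting p ⊤ C →
      ∀ X, AboveInertia p X → ∀ χ : Character p ⊤,
      (∀ l ∈ S, l.Prime ∧ (l ≠ p → NotLocal p χ l)) →
      (χ = 1 ∨ DetectsChar p ∅ C X χ) → DetectsChar p S C X χ) ∧
    -- the field `k = ℚ(ζ_p)`
    ∀ (p : ℕ) [Fact p.Prime], Setting p ⊤ (cyclotomic p) ∧ (∃ ω, IsCyclotomic p ω) ∧
      ∀ ω, IsCyclotomic p ω → ∀ (S : Set ℕ) (n : ℕ) (i : Fin n → ℤ), (∀ l ∈ S, l.Prime) →
      (∀ a b : Fin n, GoodExponent p S ω (i a - i b)) → ∀ X, AboveInertia p X →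
      Detecting p S ⊤ (cyclotomic p) (fun a => power ω (i a)) X :=
  ⟨fun _ _ _ _ _ hSet A _ _ _ _ hA hpA n ψ ρ hρ => general hSet A hA hpA n ψ ρ hρ,
    fun _ _ _ hp hSet _ hX χ hS h => detects_rational hp hSet hX χ hS h,
    fun _ hp => ⟨cyclotomic_setting hp.out, exists_cyc hp.out,
      fun _ hω _ _ i hS hi _ hX => detecting_cyclotomic hω i hS hi hX⟩⟩

end Pool.Agent.Results.MP_f68ac8_nt.EigenspaceIrreducibility
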