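import Mathlib
import Pool.Agent.U172.FM.Gen2
import Pool.Agent.U172.FM.Cyclo

/-!
# Irreducible representations are induced from representations which are strongly irreducible at `p`

Let `k` be a number field, `p` a prime number, `S` a set of prime numbers (containing `p`), and `X` a
subgroup of the absolute Galois group of `ℚ`, for example the inertia group or the decomposition group
at a prime `P` above `p` of the ring of all algebraic integers. We say that `X` detects the
`p`-extensions of `k` unramified outside `S` if no cyclic extension of degree `p` of `k`, unramified at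
the finite primes which do not lie above `S`, is fixed by `X ∩ G_k`: it is unramified, or splits
completely, at the place given by `P`. Examples:

* `S = {p}`, `k = ℚ(ζ_p)` for a regular prime `p` (for instance `p = 2, 3, 5, 7`), and more generally all
  `k` which have only one prime above `p` and no unramified extension of degree `p`; `X` is the inertia
  group at any prime above `p` (or the decomposition group; then it suffices that `k` has no unramified
  extension of degree `p` in which the prime above `p` splits);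
* `k = ℚ`, and `S` consists of `p`, of a prime `q` that is `1` modulo `p` such that `p` is not a `p`-th
  power modulo `q`, and of primes that are not `1` modulo `p`; `X` is the decomposition group at any
  prime above `p`.

Let `k / F` be an abelian extension of exponent dividing `p - 1` (for example `k = F`, or `F = ℚ` and
`k = ℚ(ζ_p)`), let `F ⊆ K ⊆ M`, where `M / k` is a finite Galois extension of degree a power of `p`,
unramified outside `S`, and let `A` be a Noetherian local ring of residue characteristic `p` (for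
example the ring of integers of a finite extension of `ℚ_p`) and `ρ : G_K → GL_n(A)` a continuous
representation of any dimension, unramified outside `S`, and residually unipotent on `G_k ∩ G_K`.
There is no condition at `p` (and none on Hodge-Tate weights).

**Theorem.** Let `X` detect the `p`-extensions of `k` unramified outside `S`.
(1) If `ρ` is potentially trivial on `X` (for example potentially unramified at one place above `p`, in
the case of inertia groups), then `ρ` has finite image.
(2) Let `E` be any field with a homomorphism `A → E`, and `V = E ^ n`. Every subspace of `V` which is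
potentially stable under `X` is potentially stable under `G_K`. If an open subgroup of `X` acts on a
subquotient of `V` by a character `χ` of `G_K` (continuous, with values in `A`, unramified outside `S`
and residually trivial on `G_k`; for example a power of the cyclotomic character), so does an open
subgroup of `G_K`. If `V` is irreducible, and if an open subgroup of `X` acts on one nonzero vector of
`V` by such a character `χ`, then `V ⊗ χ⁻¹` has finite image.
(3) Let `E` be algebraically closed of characteristic zero and let `V` be irreducible. Then `V` is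
induced from a representation `W` of `G_L`, where `L / K` is a finite extension whose degree divides
`[k : F] p ^ a`, such that for every detecting `X` (so for all primes above `p` in the examples above)
the restriction of `W` to every subgroup of finite index of `X ∩ G_L` is irreducible. Every nonzero
subspace of `V` which is potentially stable under such an `X` has dimension at least `dim W`.

So the conjecture of Fontaine and Mazur holds for the irreducible representations in this range which
potentially contain, at one place above `p`, a line with a power of the cyclotomic character, for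
example if they are potentially ordinary at one place above `p` in the wide sense (no order of the
weights is prescribed): they are Tate twists of representations with finite image. If `V` potentially
contains any stable line at one place above `p`, then `V` is monomial; and if `n` is prime to
`p [k : F]`, then `V` itself is
irreducible on all open subgroups of the groups `X`. If `V` is de Rham at `p`, so is `W`, and if `W`
comes from geometry, so does `V`; the conjecture of Fontaine and Mazur is known for characters. So for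
these fields and residual representations the conjecture is reduced to the representations which are
strongly irreducible at `p`. (This deduction is not part of the formal proof.)

Proof. By the theorem of Burnside and Frattini the image of `X ∩ G_M` is dense in the image of `G_M`
under `ρ`, and stabilizers of subspaces are closed; this gives (1) and (2). For (3) let `W` be
irreducible for `G_L` and reducible for an open normal subgroup, and let `T` be a maximal such
subgroup. Then `G_L / T` has a nontrivial cyclic normal subgroup, generated by `x`, and the commutant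
of `T` on `W` is commutative: the eigenvectors of the conjugation by `x` in the commutant are
invertible, and they commute since their group is a central extension of a cyclic group. Its weight
spaces are permuted by `G_L`, and `W` is induced from one of them.
-/

set_option autoImplicit false
set_option linter.unusedSectionVars false

namespace Pool.Agent.Results.MP_f68ac8_nt.LocalGlobalIrreducibility

open NumberField IsLocalRing Matrix
open scoped Pointwise

/-- an algebraic closure of `ℚ` -/
abbrev QBar : Type := AlgebraicClosure ℚ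

/-- the absolute Galois group of a field `F`, with the Krull topology -/
abbrev Galois (F : Type) [Field F] : Type := Gal(AlgebraicClosure F/F)

/-- The absolute Galois group of `ℚ`. The number fields in `QBar` correspond to the open subgroups,
their absolute Galois groups. -/
abbrev AbsGal : Type := Galois ℚ

/-- the ring of all algebraic integers -/
abbrev ZBar : Type := 𝓞 QBar

/-- the inertia group at `P`: all `τ` with `τ x - x ∈ P` for all `x` -/
noncomputable abbrev inertia (P : Ideal ZBar) : Subgroup AbsGal := P.inertia AbsGal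

/-- the decomposition group at `P`: the stabilizer of `P` -/
noncomputable abbrev decomposition (P : Ideal ZBar) : Subgroup AbsGal := MulAction.stabilizer AbsGal P

/-- the inertia elements at the primes which do not lie above a member of `S` -/
def OuterInertia (S : Set ℕ) : Set AbsGal :=
  {τ | ∃ P : Ideal ZBar, P.IsMaximal ∧ (∀ l ∈ S, (l : ZBar) ∉ P) ∧ τ ∈ inertia P}

/-- `C` and `U` are the absolute Galois groups of `k` and of a finite Galois extension `M / k` of
degree a power of `p`, which is unramified outside `S`. -/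
structure PExtension (p : ℕ) (S : Set ℕ) (C U : Subgroup AbsGal) : Prop where
  le : U ≤ C
  isOpen : IsOpen (U : Set AbsGal)
  normal : ∀ c ∈ C, ∀ u ∈ U, c * u * c⁻¹ ∈ U
  pow : ∀ c ∈ C, ∃ a : ℕ, c ^ p ^ a ∈ U
  unramified : ∀ τ ∈ C, τ ∈ OuterInertia S → τ ∈ U

/-- `B`, `C` and `H` are the absolute Galois groups of number fields `F`, `k` and `K`, such that `k / F`
is abelian of exponent dividing `p - 1` and `F ⊆ K ⊆ M` for some finite Galois extension `M / k` of
degree a power of `p`, unramified outside `S`. -/
structure Setting (p : ℕ) (S : Set ℕ) (B C H : Subgroup AbsGal) : Prop where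
  le : C ≤ B
  normal : ∀ b ∈ B, ∀ c ∈ C, b * c * b⁻¹ ∈ C
  abelian : ∀ a ∈ B, ∀ b ∈ B, a * b * a⁻¹ * b⁻¹ ∈ C
  exponent : ∀ b ∈ B, b ^ (p - 1) ∈ C
  between : H ≤ B ∧ ∃ U, PExtension p S C U ∧ U ≤ H

/-- `X` detects the `p`-extensions of `k` unramified outside `S`, where `C` is the absolute Galois
group of `k`: every continuous homomorphism from `C` to `ℤ/p` which is unramified outside `S` and
trivial on `X ∩ C` is trivial. -/
def Detects (p : ℕ) (S : Set ℕ) (C X : Subgroup AbsGal) : Prop :=
  ∀ f : C →* Multiplicative (ZMod p), IsOpen (f.ker : Set C) →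
    (∀ τ : C, (τ : AbsGal) ∈ OuterInertia S → f τ = 1) →
    (∀ τ : C, (τ : AbsGal) ∈ X → f τ = 1) → ∀ g, f g = 1

/-- `T` is a subgroup of finite index of `X`. -/
def FinIndex (T X : Subgroup AbsGal) : Prop := T ≤ X ∧ T.relIndex X ≠ 0

section rep

variable {H : Subgroup AbsGal} {A : Type} [CommRing A] {n : ℕ}

/-- `ρ` is continuous, unramified outside `S` and residually unipotent on `C`. -/
structure Admissible [IsLocalRing A] [TopologicalSpace A] (S : Set ℕ) (C : Subgroup AbsGal)
    (ρ : H →* GL (Fin n) A) : Prop where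
  cont : Continuous ρ
  unramified : ∀ σ : H, (σ : AbsGal) ∈ OuterInertia S → ρ σ = 1
  unipotent : ∀ σ : H, (σ : AbsGal) ∈ C → ∃ m : ℕ, ∀ i j,
    (((ρ σ : Matrix (Fin n) (Fin n) A) - 1) ^ m) i j ∈ maximalIdeal A

/-- The character `χ` is continuous, unramified outside `S` and residually trivial on `C`. -/
structure AdmissibleChar [IsLocalRing A] [TopologicalSpace A] (S : Set ℕ)
    (C : Subgroup AbsGal) (χ : H →* Aˣ) : Prop where
  cont : Continuous χ
  unramified : ∀ σ : H, (σ : AbsGal) ∈ OuterInertia S → χ σ = 1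
  residual : ∀ σ : H, (σ : AbsGal) ∈ C → (χ σ : A) - 1 ∈ maximalIdeal A

variable {E : Type} [Field E] [Algebra A E]

/-- the action of `σ` on `V = E ^ n` -/
noncomputable def act (ρ : H →* GL (Fin n) A) (σ : H) (v : Fin n → E) : Fin n → E :=
  ((ρ σ : Matrix (Fin n) (Fin n) A).map (algebraMap A E)) *ᵥ v

/-- the subspace `W` of `V` is stable under the elements of `T` -/
def Stable (ρ : H →* GL (Fin n) A) (T : Subgroup AbsGal) (W : Submodule E (Fin n → E)) : Prop :=
  ∀ σ : H, (σ : AbsGal) ∈ T → ∀ w ∈ W, act ρ σ w ∈ W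

/-- the elements of `T` stabilize `W'` and act on `W` modulo `W'` by the character `χ` -/
def ActsBy (ρ : H →* GL (Fin n) A) (χ : H →* Aˣ) (T : Subgroup AbsGal)
    (W W' : Submodule E (Fin n → E)) : Prop :=
  Stable ρ T W' ∧ ∀ σ : H, (σ : AbsGal) ∈ T → ∀ w ∈ W,
    act ρ σ w - algebraMap A E (χ σ : A) • w ∈ W'

/-- `V` is irreducible -/
def Irreducible (E : Type) [Field E] [Algebra A E] (ρ : H →* GL (Fin n) A) : Prop :=
  n ≠ 0 ∧ ∀ W : Submodule E (Fin n → E), Stable ρ H W → W = ⊥ ∨ W = ⊤

/-- The subspace `W` of the irreducible representation `V` is stable under the open subgroup `L` of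
`H`, and `[H : L] dim W = n = dim V`: `V` is induced from the representation `W` of `L`. -/
structure InducedFrom (ρ : H →* GL (Fin n) A) (L : Subgroup AbsGal) (W : Submodule E (Fin n → E)) :
    Prop where
  le : L ≤ H
  isOpen : IsOpen (L : Set AbsGal)
  stable : Stable ρ L W
  dim : L.relIndex H * Module.finrank E W = n

/-- the representation `W` of `L` is irreducible on all subgroups of finite index of `X ∩ L` -/
def Strong (ρ : H →* GL (Fin n) A) (L X : Subgroup AbsGal)
    (W : Submodule E (Fin n → E)) : Prop :=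
  ∀ T, FinIndex T (X ⊓ L) → ∀ U ≤ W, Stable ρ T U → U = ⊥ ∨ U = W

section conclusions

variable [IsLocalRing A] [TopologicalSpace A] (p : ℕ) (S : Set ℕ) (B C : Subgroup AbsGal)

/-- (1) If `ρ` is trivial on a subgroup of finite index of `X ∩ H`, then its image is finite. -/
def FiniteImage (ρ : H →* GL (Fin n) A) : Prop :=
  ∀ X, Detects p S C X → ∀ T, FinIndex T (X ⊓ H) → (∀ σ : H, (σ : AbsGal) ∈ T → ρ σ = 1) →
    (Set.range ρ).Finite

variable (E)

/-- (2a) Subspaces of `V` which are stable under a subgroup of finite index of `X ∩ H` are stable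
under an open subgroup of `H`. -/
def StableSubspaces (ρ : H →* GL (Fin n) A) : Prop :=
  ∀ X, Detects p S C X → ∀ T, FinIndex T (X ⊓ H) → ∀ W : Submodule E (Fin n → E),
    Stable ρ T W → ∃ L ≤ H, IsOpen (L : Set AbsGal) ∧ Stable ρ L W

/-- (2b) If a subgroup `T` of finite index of `X ∩ H` acts on `W` modulo `W'` by a character `χ` of
`H`, so does an open subgroup of `H`. If `V` is irreducible, and if `T` acts on one vector `v ≠ 0` by
`χ`, then an open subgroup of `H` acts on all of `V` by `χ`. -/
def Characters (ρ : H →* GL (Fin n) A) : Prop :=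
  ∀ χ : H →* Aˣ, AdmissibleChar S C χ → ∀ X, Detects p S C X →
    ∀ T, FinIndex T (X ⊓ H) →
    (∀ W W' : Submodule E (Fin n → E), ActsBy ρ χ T W W' →
      ∃ L ≤ H, IsOpen (L : Set AbsGal) ∧ ActsBy ρ χ L W W') ∧
    (Irreducible E ρ → ∀ v : Fin n → E, v ≠ 0 →
      (∀ σ : H, (σ : AbsGal) ∈ T → act ρ σ v = algebraMap A E (χ σ : A) • v) →
      ∃ L ≤ H, IsOpen (L : Set AbsGal) ∧ ∀ σ : H, (σ : AbsGal) ∈ L → ∀ w : Fin n → E,
        act ρ σ w = algebraMap A E (χ σ : A) • w)

/-- (3) If `V` is irreducible, it is induced from a representation `W` of an open subgroup `L` of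
index dividing `[B : C] p ^ a`, which is strongly irreducible on every detecting `X`. Every nonzero
subspace `U` which is stable under a subgroup of finite index of such an `X ∩ H` has dimension at
least `dim W`. -/
def Induction (ρ : H →* GL (Fin n) A) : Prop :=
  Irreducible E ρ → ∃ (L : Subgroup AbsGal) (W : Submodule E (Fin n → E)), W ≠ ⊥ ∧
    InducedFrom ρ L W ∧ (∃ a : ℕ, L.relIndex H ∣ C.relIndex B * p ^ a) ∧
    ∀ X, Detects p S C X → Strong ρ L X W ∧
      ∀ U : Submodule E (Fin n → E), U ≠ ⊥ → ∀ T, FinIndex T (X ⊓ H) → Stable ρ T U →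
        Module.finrank E W ≤ Module.finrank E U

end conclusions

end rep

/-- no cyclic extension of degree `p` of `k` is unramified at all finite primes -/
def NoExtension (p : ℕ) (C : Subgroup AbsGal) : Prop := Detects p ∅ C ⊥

/-- `k` has only one prime above `p` -/
def OnePrimeAbove (p : ℕ) (C : Subgroup AbsGal) : Prop :=
  ∀ P P' : Ideal ZBar, P.IsMaximal → P'.IsMaximal → (p : ZBar) ∈ P → (p : ZBar) ∈ P' →
    ∃ c ∈ C, c • P = P'

/-- The absolute Galois group of `ℚ(ζ_p)`: all `τ` which fix the roots of unity of order `p`. -/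
def cyclotomic (p : ℕ) : Subgroup AbsGal where
  carrier := {τ | ∀ z : QBar, z ^ p = 1 → τ z = z}
  mul_mem' := fun {a b} ha hb z hz => by
    show a (b z) = z
    rw [hb z hz, ha z hz]
  one_mem' := fun z _ => rfl
  inv_mem' := fun {a} ha z hz => by
    apply a.injective
    rw [ha z hz]
    show (a * a⁻¹) z = z
    rw [mul_inv_cancel]
    rfl

/-! ### Translation -/

section translation

variable {p : ℕ} {S : Set ℕ} {B C H : Subgroup AbsGal}

theorem pext (h : ∃ U, PExtension p S C U ∧ U ≤ H) :
    ∃ U : Subgroup AbsGal, Pool.Agent.U172.FM.PExt p (Pool.Agent.U172.FM.outer S) C U ∧ U ≤ H := by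
  obtain ⟨U, hU, hUH⟩ := h
  exact ⟨U, ⟨hU.le, hU.isOpen, hU.normal, hU.pow, fun τ h1 h2 => hU.unramified τ h1 h2⟩, hUH⟩

theorem relIndex_sub {T X : Subgroup AbsGal} (h : FinIndex T (X ⊓ H)) (Q : Subgroup H)
    (hT : T.subgroupOf H ≤ Q) : Q.relIndex (X.subgroupOf H) ≠ 0 := by
  obtain ⟨h1, h2⟩ := h
  have h4 : (T.subgroupOf H).relIndex (X.subgroupOf H) ≠ 0 := by
    rw [← Subgroup.inf_subgroupOf_right X H, Subgroup.relIndex_subgroupOf inf_le_right]
    exact h2
  intro h5
  exact h4 (Subgroup.relIndex_eq_zero_of_le_left hT h5)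

theorem finiteIndex_trans {T X L : Subgroup AbsGal} (hLH : L ≤ H) (hL : L.relIndex H ≠ 0)
    (h : FinIndex T (X ⊓ L)) : FinIndex T (X ⊓ H) := by
  obtain ⟨h1, h2⟩ := h
  refine ⟨h1.trans (inf_le_inf_left _ hLH), ?_⟩
  have h3 : L.relIndex (X ⊓ H) ≠ 0 := fun h => hL (Subgroup.relIndex_eq_zero_of_le_right inf_le_right h)
  have h4 : X.relIndex (X ⊓ H) ≠ 0 := by
    rw [Subgroup.relIndex_eq_one.2 inf_le_left]
    exact one_ne_zero
  exact Subgroup.relIndex_ne_zero_trans h2 (Subgroup.relIndex_inf_ne_zero h4 h3)

theorem cyclotomic_eq (p : ℕ) : cyclotomic p = Pool.Agent.W569.UF.HH p := by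
  ext τ
  rw [Pool.Agent.W569.UF.mem_HH]
  rfl

theorem cyclotomic_setting (hp : p.Prime)
    (h : ∃ U, PExtension p {p} (cyclotomic p) U ∧ U ≤ H) : Setting p {p} ⊤ (cyclotomic p) H where
  le := le_top
  normal := fun b _ c hc => by
    rw [cyclotomic_eq] at hc ⊢
    exact (Pool.Agent.W569.UF.normal_HH p).conj_mem c hc b
  abelian := fun a _ b _ => by
    rw [cyclotomic_eq]
    exact Pool.Agent.U172.FM.comm_HH hp a b
  exponent := fun b _ => by
    rw [cyclotomic_eq]
    exact Pool.Agent.U172.FM.pow_HH hp b
  between := ⟨le_top, h⟩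

theorem translate {L : Subgroup H} : (L.map H.subtype).subgroupOf H = L :=
  Subgroup.comap_map_eq_self_of_injective H.subtype_injective L

theorem isOpen_translate (hH : IsOpen (H : Set AbsGal)) {L : Subgroup H} (hL : IsOpen (L : Set H)) :
    IsOpen ((L.map H.subtype : Subgroup AbsGal) : Set AbsGal) := by
  rw [Subgroup.coe_map]
  exact hH.isOpenMap_subtype_val _ hL

section twist

variable {A : Type} [CommRing A] [IsLocalRing A] [IsNoetherianRing A] {n : ℕ} {E : Type} [Field E]
  [Algebra A E]

theorem smul_inv (χ : H →* Aˣ) (σ : H) (v : Fin n → E) :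
    algebraMap A E ((χ σ : Aˣ) : A) • algebraMap A E (((χ σ)⁻¹ : Aˣ) : A) • v = v := by
  rw [smul_smul, ← map_mul, Units.mul_inv, map_one, one_smul]

theorem inv_smul' (χ : H →* Aˣ) (σ : H) (v : Fin n → E) :
    algebraMap A E (((χ σ)⁻¹ : Aˣ) : A) • algebraMap A E ((χ σ : Aˣ) : A) • v = v := by
  rw [smul_smul, ← map_mul, Units.inv_mul, map_one, one_smul]

theorem actsBy_span {ρ : H →* GL (Fin n) A} {χ : H →* Aˣ} {T : Subgroup AbsGal} {v : Fin n → E}
    (h : ∀ σ : H, (σ : AbsGal) ∈ T → act ρ σ v = algebraMap A E (χ σ : A) • v) :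
    ActsBy ρ χ T (Submodule.span E {v}) ⊥ := by
  refine ⟨fun σ _ w hw => ?_, fun σ hσ w hw => ?_⟩
  · rw [Submodule.mem_bot] at hw ⊢
    rw [hw]
    exact map_zero (Pool.Agent.U172.FM.act E ρ σ)
  · obtain ⟨c, rfl⟩ := Submodule.mem_span_singleton.1 hw
    have h1 : act ρ σ (c • v) = c • act ρ σ v := map_smul (Pool.Agent.U172.FM.act E ρ σ) c v
    rw [Submodule.mem_bot, h1, h σ hσ, smul_comm, sub_self]

theorem actsBy_le {ρ : H →* GL (Fin n) A} {χ : H →* Aˣ} {T : Subgroup AbsGal}
    {W W' : Submodule E (Fin n → E)} (h : ActsBy ρ χ T W W') :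
    T.subgroupOf H ≤ Pool.Agent.U172.FM.fixq (Pool.Agent.U172.FM.tw ρ χ) W W' := by
  intro σ hσ
  refine ⟨?_, fun w hw => ?_⟩
  · refine Pool.Agent.U172.FM.le_stb (D := T.subgroupOf H) (fun g hg w hw => ?_) hσ
    rw [Pool.Agent.U172.FM.tw_act]
    exact W'.smul_mem _ (h.1 g hg w hw)
  · have h1 := W'.smul_mem (algebraMap A E (((χ σ)⁻¹ : Aˣ) : A)) (h.2 σ hσ w hw)
    rw [smul_sub, inv_smul'] at h1
    rw [Pool.Agent.U172.FM.tw_act]
    exact h1

theorem le_actsBy {ρ : H →* GL (Fin n) A} {χ : H →* Aˣ} {L : Subgroup H}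
    {W W' : Submodule E (Fin n → E)}
    (h : L ≤ Pool.Agent.U172.FM.fixq (Pool.Agent.U172.FM.tw ρ χ) W W') :
    ActsBy ρ χ (L.map H.subtype) W W' := by
  refine ⟨fun σ hσ w hw => ?_, fun σ hσ w hw => ?_⟩
  · obtain ⟨τ, hτ, hτσ⟩ := hσ
    have e : τ = σ := Subtype.ext hτσ
    subst e
    have h1 := ((h hτ).1 w).1 hw
    rw [Pool.Agent.U172.FM.tw_act] at h1
    have h2 := W'.smul_mem (algebraMap A E ((χ τ : Aˣ) : A)) h1
    rwa [smul_inv] at h2
  · obtain ⟨τ, hτ, hτσ⟩ := hσ
    have e : τ = σ := Subtype.ext hτσ
    subst e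
    have h1 := (h hτ).2 w hw
    rw [Pool.Agent.U172.FM.tw_act] at h1
    have h2 := W'.smul_mem (algebraMap A E ((χ τ : Aˣ) : A)) h1
    rwa [smul_sub, smul_inv] at h2

end twist

/-- the general theorem -/
theorem general [hp : Fact p.Prime] (hSet : Setting p S B C H) (A : Type) [CommRing A]
    [IsLocalRing A] [IsNoetherianRing A] [TopologicalSpace A] (hA : IsAdic (maximalIdeal A))
    (hpA : (p : A) ∈ maximalIdeal A) (n : ℕ) (ρ : H →* GL (Fin n) A) (hρ : Admissible S C ρ) :
    FiniteImage p S C ρ ∧
    ∀ (E : Type) [Field E] [Algebra A E],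
      StableSubspaces E p S C ρ ∧ Characters E p S C ρ ∧
      ∀ [IsAlgClosed E] [CharZero E], Induction E p S B C ρ := by
  obtain ⟨hHB, hU'⟩ := hSet.between
  obtain ⟨U, hU, hUH⟩ := pext hU'
  have hR : ∀ c ∈ C, ∀ τ ∈ Pool.Agent.U172.FM.outer S, c * τ * c⁻¹ ∈ Pool.Agent.U172.FM.outer S :=
    fun c _ τ hτ => Pool.Agent.U172.FM.outer_conj S c hτ
  have hHo : IsOpen (H : Set AbsGal) := Subgroup.isOpen_mono hUH hU.isOpen
  have hStab : ∀ (E : Type) [Field E] [Algebra A E], ∀ X, Detects p S C X → ∀ T,
      FinIndex T (X ⊓ H) → ∀ W : Submodule E (Fin n → E), Stable ρ T W →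
      ∃ m, Pool.Agent.U172.FM.cong ρ m ≤ Pool.Agent.U172.FM.stb ρ W := by
    intro E _ _ X hX T hT W hW
    exact Pool.Agent.U172.FM.potStab hU hUH hR hX hA hpA hρ.cont hρ.unipotent hρ.unramified W
      (relIndex_sub hT _ (Pool.Agent.U172.FM.le_stb fun g hg w hw => hW g hg w hw))
  refine ⟨fun X hX T hT h => ?_, fun E _ _ => ⟨fun X hX T hT W hW => ?_,
    fun χ hχ X hX T hT => ⟨fun W W' hW => ?_, fun hirr v hv hW => ?_⟩, ?_⟩⟩
  · refine Pool.Agent.U172.FM.potTriv hU hUH hR hX hA hpA hρ.cont hρ.unipotent hρ.unramified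
      (relIndex_sub hT _ fun g hg => ?_)
    exact (MonoidHom.mem_ker).2 (h g hg)
  · obtain ⟨m, hm⟩ := hStab E X hX T hT W hW
    refine ⟨(Pool.Agent.U172.FM.cong ρ m).map H.subtype, Subgroup.map_subtype_le _,
      isOpen_translate hHo (Pool.Agent.U172.FM.cong_open hA hρ.cont m), ?_⟩
    intro σ hσ w hw
    obtain ⟨τ, hτ, hτσ⟩ := hσ
    have e : τ = σ := Subtype.ext hτσ
    subst e
    exact ((hm hτ) w).1 hw
  · obtain ⟨m, hm⟩ := Pool.Agent.U172.FM.potFix hU hUH hR hX hA hpA
      (Pool.Agent.U172.FM.tw_cont hA hρ.cont hχ.cont)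
      (fun g hg => by
        obtain ⟨N, hN⟩ := hρ.unipotent g hg
        exact ⟨N, Pool.Agent.U172.FM.tw_res hN (hχ.residual g hg)⟩)
      (fun g hg => by
        show Pool.Agent.U172.FM.sc A n (χ g)⁻¹ * ρ g = 1
        rw [hχ.unramified g hg, hρ.unramified g hg, inv_one, map_one, one_mul])
      W W' (relIndex_sub hT _ (actsBy_le hW))
    exact ⟨_, Subgroup.map_subtype_le _, isOpen_translate hHo (Pool.Agent.U172.FM.cong_open hA
      (Pool.Agent.U172.FM.tw_cont hA hρ.cont hχ.cont) m), le_actsBy hm⟩
  · obtain ⟨m, hm⟩ := Pool.Agent.U172.FM.potVec hU hUH hR hX hA hpA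
      (Pool.Agent.U172.FM.tw_cont hA hρ.cont hχ.cont)
      (fun g hg => by
        obtain ⟨N, hN⟩ := hρ.unipotent g hg
        exact ⟨N, Pool.Agent.U172.FM.tw_res hN (hχ.residual g hg)⟩)
      (fun g hg => by
        show Pool.Agent.U172.FM.sc A n (χ g)⁻¹ * ρ g = 1
        rw [hχ.unramified g hg, hρ.unramified g hg, inv_one, map_one, one_mul])
      hv (fun W hW => hirr.2 W fun σ _ w hw => by
        have h1 := hW σ w hw
        rw [Pool.Agent.U172.FM.tw_act] at h1
        have h2 := W.smul_mem (algebraMap A E ((χ σ : Aˣ) : A)) h1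
        rwa [smul_inv] at h2)
      (relIndex_sub hT _ (actsBy_le (actsBy_span hW)))
    refine ⟨_, Subgroup.map_subtype_le _, isOpen_translate hHo (Pool.Agent.U172.FM.cong_open hA
      (Pool.Agent.U172.FM.tw_cont hA hρ.cont hχ.cont) m), fun σ hσ w => ?_⟩
    obtain ⟨τ, hτ, hτσ⟩ := hσ
    have e : τ = σ := Subtype.ext hτσ
    subst e
    have h1 := hm τ hτ w
    rw [Pool.Agent.U172.FM.tw_act] at h1
    have h2 := congrArg (algebraMap A E ((χ τ : Aˣ) : A) • ·) h1
    change algebraMap A E ((χ τ : Aˣ) : A) • algebraMap A E (((χ τ)⁻¹ : Aˣ) : A) •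
      Pool.Agent.U172.FM.act E ρ τ w = algebraMap A E ((χ τ : Aˣ) : A) • w at h2
    rwa [smul_inv] at h2
  · intro _ _ hirr
    obtain ⟨L, W, hLo, hW0, hLW, hdim, hidx, hstr, hmin⟩ := Pool.Agent.U172.FM.indStr hU hUH hHB
      hSet.le hSet.normal hSet.abelian hSet.exponent hA hpA hρ.cont hρ.unipotent (E := E) hirr.1
      (fun W hW => hirr.2 W fun σ _ w hw => hW σ w hw)
    have hrel : (L.map H.subtype).relIndex H = L.index := by
      rw [Subgroup.relIndex, translate]
    refine ⟨L.map H.subtype, W, hW0, ⟨Subgroup.map_subtype_le _, isOpen_translate hHo hLo, ?_, ?_⟩,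
      ?_, fun X hX => ⟨fun T hT U' hU' hs => ?_, fun U' hU' T hT hs => ?_⟩⟩
    · intro σ hσ w hw
      obtain ⟨τ, hτ, hτσ⟩ := hσ
      have e : τ = σ := Subtype.ext hτσ
      subst e
      exact hLW τ hτ w hw
    · rw [hrel]
      exact hdim
    · rw [hrel]
      exact hidx
    · have hLf : (L.map H.subtype).relIndex H ≠ 0 := by
        rw [hrel]
        have hHc : CompactSpace H := isCompact_iff_compactSpace.1
          (Subgroup.isClosed_of_isOpen _ hHo).isCompact
        exact (Pool.Agent.U172.FM.finIdx_of_open hLo).index_ne_zero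
      obtain ⟨m, hm⟩ := hStab E X hX T (finiteIndex_trans (Subgroup.map_subtype_le _) hLf hT) U' hs
      exact hstr (Pool.Agent.U172.FM.stb ρ U') ⟨m, hm⟩ U' hU' (fun t ht u hu => ((ht.1) u).1 hu)
    · obtain ⟨m, hm⟩ := hStab E X hX T hT U' hs
      exact hmin U' hU' ⟨m, hm⟩

theorem detects_one {P : Ideal ZBar} (hP : P.IsMaximal) (hpP : (p : ZBar) ∈ P)
    (hC : OnePrimeAbove p C) {X : Subgroup AbsGal} (hX : inertia P ≤ X) (hdet : Detects p ∅ C X) :
    Detects p {p} C X := by
  intro f hf h1 h2
  refine hdet f hf (fun τ hτ => ?_) h2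
  obtain ⟨P', hP', -, hτ⟩ := hτ
  by_cases hp : (p : ZBar) ∈ P'
  · obtain ⟨c, hc, hcP⟩ := hC P P' hP hP' hpP hp
    exact Pool.Agent.U172.FM.one_prime f hc hcP (fun τ hτ => h2 τ (hX hτ)) τ hτ
  · exact h1 τ ⟨P', hP', fun l hl => by rw [Set.mem_singleton_iff] at hl; rwa [hl], hτ⟩

theorem detects_cyclotomic (hp : p.Prime) (h : p ≤ 7 ∨ NoExtension p (cyclotomic p))
    {P : Ideal ZBar} (hP : P.IsMaximal) (hpP : (p : ZBar) ∈ P) :
    Detects p {p} (cyclotomic p) (inertia P) := by
  rw [cyclotomic_eq] at h ⊢
  refine Pool.Agent.U172.FM.det_cyc hp (h.imp id fun h f hf h1 => ?_) hP hpP fun τ hτ => hτ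
  refine h f hf (fun τ hτ => ?_) fun τ hτ => ?_
  · obtain ⟨P', hP', -, h2⟩ := hτ
    exact h1 P' hP' τ h2
  · have e : τ = 1 := Subtype.ext hτ
    rw [e, map_one]

end translation

/-- Irreducible representations with residually unipotent restriction to `G_k`, unramified outside
`S`, are induced from representations which are strongly irreducible on all subgroups `X` detecting
the `p`-extensions of `k` unramified outside `S`; potentially trivial representations are finite, and
potentially stable subspaces are potentially stable under the whole group. -/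
theorem result :
    (∀ (p : ℕ) [Fact p.Prime] (S : Set ℕ) (B C H : Subgroup AbsGal), Setting p S B C H →
      ∀ (A : Type) [CommRing A] [IsLocalRing A] [IsNoetherianRing A] [TopologicalSpace A],
      IsAdic (maximalIdeal A) → (p : A) ∈ maximalIdeal A →
      ∀ (n : ℕ) (ρ : H →* GL (Fin n) A), Admissible S C ρ →
      FiniteImage p S C ρ ∧
      ∀ (E : Type) [Field E] [Algebra A E],
        StableSubspaces E p S C ρ ∧ Characters E p S C ρ ∧
        ∀ [IsAlgClosed E] [CharZero E], Induction E p S B C ρ) ∧
    -- inertia groups at `p`, for `k = ℚ(ζ_p)`, `p` regular, and `F = ℚ`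
    (∀ p : ℕ, p.Prime → (p ≤ 7 ∨ NoExtension p (cyclotomic p)) →
      (∀ P : Ideal ZBar, P.IsMaximal → (p : ZBar) ∈ P → Detects p {p} (cyclotomic p) (inertia P)) ∧
      ∀ H, (∃ U, PExtension p {p} (cyclotomic p) U ∧ U ≤ H) →
        Setting p {p} ⊤ (cyclotomic p) H) ∧
    -- fields `k` with one prime above `p`
    (∀ (p : ℕ) (C : Subgroup AbsGal), OnePrimeAbove p C →
      ∀ P : Ideal ZBar, P.IsMaximal → (p : ZBar) ∈ P → ∀ X, inertia P ≤ X → Detects p ∅ C X →
        Detects p {p} C X) ∧
    -- decomposition groups at `p`, for `k = ℚ`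
    (∀ p q : ℕ, p.Prime → q.Prime → p ∣ q - 1 → (p : ZMod q) ^ ((q - 1) / p) ≠ 1 →
      ∀ S : Set ℕ, (∀ l ∈ S, l.Prime ∧ (p ∣ l - 1 → l = q)) →
      ∀ P : Ideal ZBar, P.IsMaximal → (p : ZBar) ∈ P → Detects p S ⊤ (decomposition P)) :=
  ⟨fun _ _ _ _ _ _ hSet A _ _ _ _ hA hpA n ρ hρ => general hSet A hA hpA n ρ hρ,
    fun _ hp h => ⟨fun _ hP hpP => detects_cyclotomic hp h hP hpP,
      fun _ hH => cyclotomic_setting hp hH⟩,
    fun _ _ hC _ hP hpP _ hX hdet => detects_one hP hpP hC hX hdet,
    fun _ _ hp hq hpq hpow _ hS _ hP hpP =>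
      Pool.Agent.U172.FM.det_rat hp hq hpq hpow hS hP hpP fun _ hσ => hσ⟩

end Pool.Agent.Results.MP_f68ac8_nt.LocalGlobalIrreducibility
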