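import Pool.Agent.U419.RF.Five

/-!
# The tame Fontaine-Mazur property in all dimensions: a positive proportion of all tuples of primes

Let `p ^ m > 2` and let `L` be the set of the primes `l` with `p ^ m ∣ l - 1` and
`p ^ (m + 1) ∤ l - 1`. A tuple of distinct primes in `L` is called tame if every continuous
representation of `G_ℚ` in `GL_n(A)`, of any dimension `n` over any Noetherian local ring `A` of
residue characteristic `p`, which is unramified outside the primes of the tuple and primes
`≢ 1 mod p ^ m` (and at `p`) and trivial modulo `p ^ m` on inertia, has finite image, and is trivial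
if `p ^ (m + 1) a = 0` implies `p ^ m a = 0` in `A`.

* For every `k` at least the proportion `∏ i < k, (1 + i (p - 1)) / p ^ i` of the `k`-tuples is tame.
* For `p = 2` at least the proportion `g_k / 2 ^ (k (k - 1) / 2)`, where `g_k` is the number of the
  graphs with vertices `1, …, k` all of whose subsets of at least five vertices contain a vertex
  adjacent to at most one or to all but at most one of the others, or are a disjoint union or a
  join; `g_5 = 1012`, so 98.8 percent of all quintuples of primes are tame.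

The linear algebra criterion is that of the starting file `MP_924d78_nt.AllDimensions`; the
equidistribution of the power residue symbols between the primes of a tuple comes from the large sieve
(folder `Q315/FM` of the starting library, written by an earlier team and used in no hand-in).
-/

set_option autoImplicit false

open NumberField IsLocalRing Filter

namespace Pool.Agent.Results.MP_f68ac8_nt.ManyTuples

/-- the absolute Galois group of `ℚ`, with the Krull topology -/
abbrev AbsGal : Type := Gal(AlgebraicClosure ℚ/ℚ)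

/-- `ρ` is unramified at the prime ideal `P` of the ring of all algebraic integers: the inertia group
at `P` acts trivially. -/
def UnramifiedAt {n : ℕ} {A : Type} [CommRing A] (ρ : AbsGal →* GL (Fin n) A)
    (P : Ideal (𝓞 (AlgebraicClosure ℚ))) : Prop :=
  ∀ τ : AbsGal, (∀ x : 𝓞 (AlgebraicClosure ℚ), τ • x - x ∈ P) → ρ τ = 1

/-- `ρ` is unramified at all primes that do not lie above a prime number in `S` (in particular at the
primes above `p`, if `p ∉ S`). -/
def UnramifiedOutside {n : ℕ} {A : Type} [CommRing A] (S : Finset ℕ)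
    (ρ : AbsGal →* GL (Fin n) A) : Prop :=
  ∀ P : Ideal (𝓞 (AlgebraicClosure ℚ)), P.IsMaximal →
    (∀ l ∈ S, (l : 𝓞 (AlgebraicClosure ℚ)) ∉ P) → UnramifiedAt ρ P

/-- The inertia groups at the primes which lie above a prime number in `S` act trivially modulo
`p ^ m`. -/
def InertiaTrivialMod {n : ℕ} {A : Type} [CommRing A] (p m : ℕ) (S : Finset ℕ)
    (ρ : AbsGal →* GL (Fin n) A) : Prop :=
  ∀ P : Ideal (𝓞 (AlgebraicClosure ℚ)), P.IsMaximal → (∃ l ∈ S, (l : 𝓞 (AlgebraicClosure ℚ)) ∈ P) →
    ∀ τ : AbsGal, (∀ x : 𝓞 (AlgebraicClosure ℚ), τ • x - x ∈ P) →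
      ∀ i j, (p : A) ^ m ∣ ((ρ τ : Matrix (Fin n) (Fin n) A) - 1) i j

/-- The tame Fontaine-Mazur property of a set `T` of prime numbers in dimension `n`: let `S` be any
finite set of primes, different from `p` and not congruent to `1` modulo `p ^ (m + 1)`, whose members
congruent to `1` modulo `p ^ m` belong to `T`; let `A` be any Noetherian local ring of residue
characteristic `p` with its adic topology. Then every continuous representation of the absolute
Galois group of `ℚ` in `GL_n(A)` which is unramified outside `S`, and trivial modulo `p ^ m` on the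
inertia groups at the primes in `S`, has finite image; it is trivial if `p ^ (m + 1) a = 0` implies
`p ^ m a = 0` in `A`. -/
def TameFM (p m n : ℕ) (T : Set ℕ) : Prop :=
  ∀ S : Finset ℕ, (∀ l ∈ S, l.Prime ∧ l ≠ p ∧ ¬ p ^ (m + 1) ∣ l - 1) →
    (∀ l ∈ S, p ^ m ∣ l - 1 → l ∈ T) →
    ∀ (A : Type) [CommRing A] [IsLocalRing A] [IsNoetherianRing A] [TopologicalSpace A],
      IsAdic (maximalIdeal A) → (p : A) ∈ maximalIdeal A →
        ∀ ρ : AbsGal →* GL (Fin n) A, Continuous ρ → UnramifiedOutside S ρ →
          InertiaTrivialMod p m S ρ →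
          (Set.range ρ).Finite ∧
            ((∀ a : A, (p : A) ^ (m + 1) * a = 0 → (p : A) ^ m * a = 0) → ∀ g, ρ g = 1)

/-- the primes `l ≤ x` with `p ^ m ∣ l - 1` and `p ^ (m + 1) ∤ l - 1` -/
def L (p m x : ℕ) : Set ℕ := {l | l ≤ x ∧ l.Prime ∧ p ^ m ∣ l - 1 ∧ ¬ p ^ (m + 1) ∣ l - 1}

/-- the `k`-tuples of distinct primes in `L p m x` which have the tame Fontaine-Mazur property in
every dimension -/
def Tame (p m k x : ℕ) : Set (Fin k → ℕ) :=
  {t | (∀ i, t i ∈ L p m x) ∧ Function.Injective t ∧ ∀ n, TameFM p m n (Set.range t)}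

/-- A graph on the vertices `0, …, k - 1`, given by the set of its edges `(i, j)`, `i < j`. -/
def IsGraph {k : ℕ} (G : Finset (Fin k × Fin k)) : Prop := ∀ e ∈ G, e.1 < e.2

/-- `i` and `j` are adjacent -/
def Adj {k : ℕ} (G : Finset (Fin k × Fin k)) (i j : Fin k) : Prop := (i, j) ∈ G ∨ (j, i) ∈ G

/-- Every set `J` of at least five vertices contains a vertex adjacent to at most one, or to all but
at most one, of the others, or is the union of two nonempty disjoint subsets without edges between
them, or with all edges between them. -/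
def Simple {k : ℕ} (G : Finset (Fin k × Fin k)) : Prop :=
  ∀ J : Finset (Fin k), 5 ≤ J.card →
    (∃ l ∈ J, {j | j ∈ J ∧ j ≠ l ∧ Adj G l j}.Subsingleton ∨
      {j | j ∈ J ∧ j ≠ l ∧ ¬ Adj G l j}.Subsingleton) ∨
    (∃ K : Finset (Fin k), K ⊂ J ∧ K.Nonempty ∧
      ((∀ l ∈ K, ∀ j ∈ J, j ∉ K → ¬ Adj G l j) ∨ (∀ l ∈ K, ∀ j ∈ J, j ∉ K → Adj G l j)))

/-- **A positive proportion of all tuples of primes has the tame Fontaine-Mazur property in all
dimensions.** Let `p ^ m > 2`. (1) For every `k` and `ε > 0` and all large `x`, at least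
`(∏ i < k, (1 + i (p - 1)) / p ^ i - ε) |L| ^ k` of the `k`-tuples from `L = L p m x` consist of
distinct primes and have the tame Fontaine-Mazur property in every dimension. (2) If `p = 2` this
holds for the proportion of the graphs on `k` vertices with the property `Simple`. (3) If `p = 2` and
`k = 5` it holds for the proportion `1012 / 1024`. -/
theorem result (p : ℕ) [hp : Fact p.Prime] (m : ℕ) (hm : 2 < p ^ m) (k : ℕ) :
    (∀ ε : ℝ, 0 < ε → ∀ᶠ x : ℕ in atTop,
      ((∏ i ∈ Finset.range k, (1 + i * ((p : ℝ) - 1)) / (p : ℝ) ^ i) - ε) *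
        ((L p m x).ncard : ℝ) ^ k ≤ ((Tame p m k x).ncard : ℝ)) ∧
    (p = 2 → ∀ ε : ℝ, 0 < ε → ∀ᶠ x : ℕ in atTop,
      (({G : Finset (Fin k × Fin k) | IsGraph G ∧ Simple G}.ncard : ℝ) /
        {G : Finset (Fin k × Fin k) | IsGraph G}.ncard - ε) *
        ((L p m x).ncard : ℝ) ^ k ≤ ((Tame p m k x).ncard : ℝ)) ∧
    (p = 2 → k = 5 → ∀ ε : ℝ, 0 < ε → ∀ᶠ x : ℕ in atTop,
      (1012 / 1024 - ε) * ((L p m x).ncard : ℝ) ^ k ≤ ((Tame p m k x).ncard : ℝ)) :=
  ⟨Pool.Agent.U419.RF.sparse_prop m hm k, Pool.Agent.U419.RF.graph_prop m hm k,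
    Pool.Agent.U419.RF.five_prop m hm k⟩

end Pool.Agent.Results.MP_f68ac8_nt.ManyTuples
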