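import Pool.Agent.U419.RT.Nest
import Pool.Agent.U419.RT.Simple
import Pool.Agent.U419.RT.Unr
import Pool.Agent.Q202.QT.Ker
import Pool.Agent.N829.PW.Rat
import Pool.Agent.Results.MP_f68ac8_nt.RankTwoWeightZero

/-!
# Two-dimensional representations unramified at `p`, for most tuples of tame primes

Let `p` be an odd prime number and `T` a finite set of primes `l ≡ 1 mod p`. We consider the
continuous representations `ρ : Gal(ℚbar/ℚ) → GL_2(A)`, where `A` is a discrete valuation ring of
characteristic zero with residue field of order `p`, which are residually unipotent and unramified at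
`p` and at the primes `l ≡ 1 mod p` outside `T`. These are the continuous homomorphisms to `GL_2(A)` of
the Galois group of the maximal `p`-extension of `ℚ` which is unramified outside `T`, a group which is
infinite if `T` has at least four elements (Golod, Shafarevich). There is no condition on the
restriction of `ρ` to the inertia groups at the primes in `T`. The conjecture of Fontaine and Mazur
predicts that `ρ` has finite image.

We say that `OnlyTrivial p T` holds if all these `ρ` are trivial for all `A` whose ramification index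
`e` is such that `2 e` is not divisible by `p - 1` (for example `A = ℤ_p`, `p ≥ 5`), and for all `A` if
moreover `GL_2(A)` has no elements of order `p`, or if the inertia groups at the primes in `T` act
unipotently.

Theorem. `OnlyTrivial p {q_1, …, q_k}` holds for all `k`-tuples of primes `q_i ≡ 1 mod p` but a proportion
of at most

`((3 - 2 / p) ^ k - 2 (2 - 1 / p) ^ k + 1) / (2 (p - 1) ^ 2) + 3 (2 ^ k - 1 - k - C(k, 2)) / (p ^ 3 - p)`,

which is at most `3 ^ k / (2 p ^ 2)` if `p ≥ 5`. The proportion is meant in the sense of iterated lower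
averages (lower average over `q_1` of the lower average over `q_2` …).

For example `OnlyTrivial` holds for at least `96` percent of the pairs for `p = 5`, for more than
`85` percent of the quadruples for `p = 13`, and for more than `99.7` percent of the quadruples for
`p = 101`.

Proof. By the starting theorem `RankTwoWeightZero` it suffices that certain systems of equations with
coefficients in the linking numbers (the classes of `q_i` in `(ℤ/q_j)ˣ` modulo `p`-th powers) and
the classes of `(q_i - 1) / p` modulo `p` have no solutions in pairs of characters, and in tuples of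
nilpotent `2 × 2` matrices which are not simultaneously triangular. A given pair or tuple with support
`J` solves the proportion `p ^ (-#J)` or `p ^ (-2 #J)` of the systems; on the other hand there are few
pairs or tuples, and a system with one solution has at least `2 (p - 1) ^ 2` or
`#PGL_2(𝔽_p) = p ^ 3 - p` of them. The linking numbers and levels of a new prime with the given primes
are equidistributed (Chebotarev, `Pool.Agent.Q202.QT`), up to multiples of one of the two vectors of
linking numbers, and the zero vector has its share, too.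
-/

set_option autoImplicit false

open NumberField IsLocalRing Filter

namespace Pool.Agent.Results.MP_f68ac8_nt.RankTwoTuples

/-- the absolute Galois group of `ℚ`, with the Krull topology -/
abbrev AbsGal : Type := Gal(AlgebraicClosure ℚ/ℚ)

/-- `τ` lies in the inertia group at the ideal `P` of the ring of all algebraic integers. -/
def InInertia (P : Ideal (𝓞 (AlgebraicClosure ℚ))) (τ : AbsGal) : Prop :=
  ∀ x : 𝓞 (AlgebraicClosure ℚ), τ • x - x ∈ P

section
variable {A : Type} [CommRing A]

/-- `ρ` is trivial on the inertia groups at the maximal ideals of the ring of all algebraic integers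
which contain `p` or a prime number `l ≡ 1` modulo `p` which is not in `T`. -/
def UnramifiedOutside (p : ℕ) (T : Finset ℕ) (ρ : AbsGal →* GL (Fin 2) A) : Prop :=
  ∀ P : Ideal (𝓞 (AlgebraicClosure ℚ)), P.IsMaximal → ∀ l : ℕ, l.Prime →
    (l : 𝓞 (AlgebraicClosure ℚ)) ∈ P → (l = p ∨ (p ∣ l - 1 ∧ l ∉ T)) → ∀ τ, InInertia P τ → ρ τ = 1

/-- The inertia groups at the primes above the members of `T` act unipotently. -/
def UnipotentInertia (T : Finset ℕ) (ρ : AbsGal →* GL (Fin 2) A) : Prop :=
  ∀ P : Ideal (𝓞 (AlgebraicClosure ℚ)), P.IsMaximal → ∀ l ∈ T,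
    (l : 𝓞 (AlgebraicClosure ℚ)) ∈ P → ∀ τ, InInertia P τ →
      ((ρ τ : Matrix (Fin 2) (Fin 2) A) - 1) ^ 2 = 0

/-- Every `ρ g` is unipotent modulo the maximal ideal. -/
def ResiduallyUnipotent [IsLocalRing A] (ρ : AbsGal →* GL (Fin 2) A) : Prop :=
  ∀ g, ∃ M : ℕ, ∀ i j, (((ρ g : Matrix (Fin 2) (Fin 2) A) - 1) ^ M) i j ∈ maximalIdeal A

end

/-- For all discrete valuation rings `A` of characteristic zero with residue field of order `p`, with
the adic topology, in which `p` has valuation `e`, every continuous, residually unipotent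
`ρ : Gal(ℚbar/ℚ) → GL_2(A)` which is unramified at `p` and at the primes `l ≡ 1` modulo `p` outside `T`
is trivial, if `p - 1` does not divide `2 e`, or if `GL_2(A)` has no elements of order `p`, or if the
inertia groups at the primes in `T` act unipotently. -/
def OnlyTrivial (p : ℕ) (T : Finset ℕ) : Prop :=
  ∀ (A : Type) [CommRing A] [IsDomain A] [IsDiscreteValuationRing A] [CharZero A]
    [TopologicalSpace A], IsAdic (maximalIdeal A) → Nat.card (ResidueField A) = p →
    ∀ e : ℕ, (p : A) ∈ maximalIdeal A ^ e → (p : A) ∉ maximalIdeal A ^ (e + 1) →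
    ∀ ρ : AbsGal →* GL (Fin 2) A, Continuous ρ → ResiduallyUnipotent ρ → UnramifiedOutside p T ρ →
      (¬ (p - 1) ∣ 2 * e ∨ (∀ M : Matrix (Fin 2) (Fin 2) A, M ^ p = 1 → M = 1) ∨
        UnipotentInertia T ρ) → ∀ g, ρ g = 1

open Classical in
/-- The primes `q ≤ x` with `p ∣ q - 1`. -/
noncomputable def Pr (p x : ℕ) : Finset ℕ :=
  (Finset.range (x + 1)).filter fun q => q.Prime ∧ p ∣ q - 1

open Classical in
/-- The iterated lower average of the indicator function of `R`: `LowerShare p R k T` is, for `k = 0`,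
`1` or `0` according to whether `T` has the property `R`, and for `k ≥ 1` the limit inferior, for `x` to
infinity, of the average over the primes `q ≤ x` with `q ≡ 1` modulo `p` of
`LowerShare p R (k - 1) (T ∪ {q})` (and of `0` for `q ∈ T`). -/
noncomputable def LowerShare (p : ℕ) (R : Finset ℕ → Prop) : ℕ → Finset ℕ → ℝ
  | 0, T => if R T then 1 else 0
  | k + 1, T => liminf (fun x : ℕ =>
      (∑ q ∈ (Pr p x).filter (fun q => q ∉ T), LowerShare p R k (insert q T)) /
        ((Pr p x).card : ℝ)) atTop

section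
open Pool.Agent.Q202.RT Pool.Agent.Q202.QT Pool.Agent.U419.RT
open Pool.Agent.W569.TG (lk)
open Pool.Agent.Results.MP_f68ac8_nt.RankTwoWeightZero (linking NoPair NoTuple Tame)

theorem Pr_eq (p x : ℕ) [Fact p.Prime] : Pr p x = P1 p x := by
  ext l
  rw [mem_P1, Pr, Finset.mem_filter, Finset.mem_range]
  constructor
  · rintro ⟨h1, h2, h3⟩
    exact ⟨by omega, h2, h3⟩
  · rintro ⟨h1, h2, h3⟩
    exact ⟨by omega, h2, h3⟩

theorem share_eq (p : ℕ) [Fact p.Prime] (R : Finset ℕ → Prop) (k : ℕ) :
    ∀ T, LowerShare p R k T = Share p R k T := by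
  induction k with
  | zero => intro T; rfl
  | succ k ih =>
    intro T
    unfold LowerShare Share
    congr 1
    funext x
    rw [Pr_eq]
    congr 1
    exact Finset.sum_congr rfl fun q _ => ih _

variable {p : ℕ} [hpF : Fact p.Prime]

theorem linking_lk' {K : Type} [Field K] [CharP K p]
    (χ : ∀ j : ℕ, (ZMod j)ˣ →* Multiplicative (ZMod p)) (j q : ℕ) :
    linking K j q (χ j) = ZMod.castHom (dvd_refl p) K (lk χ q j) := by
  have : NeZero p := ⟨hpF.out.ne_zero⟩
  unfold linking lk
  split_ifs with h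
  · rw [ZMod.castHom_apply, ZMod.natCast_val]
  · rw [map_zero]

/-- the criterion -/
theorem crit (hp2 : p ≠ 2) (χ : ∀ j : ℕ, (ZMod j)ˣ →* Multiplicative (ZMod p)) (hχ : Kr χ)
    (k : ℕ) (l : Fin k → ℕ) (hl : ∀ i, (l i).Prime) (hpl : ∀ i, p ∣ l i - 1)
    (hli : Function.Injective l) (hG : ¬ Bad (dat χ l)) :
    OnlyTrivial p (Finset.univ.image l) := by
  classical
  intro A _ _ _ _ _ hA hcard e h0 h1 ρ hρ hres hur hcond
  have hp : p.Prime := hpF.out
  have h2 : (2 : ZMod p) ≠ 0 := by
    intro h
    have h' : ((2 : ℕ) : ZMod p) = 0 := by exact_mod_cast h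
    rw [ZMod.natCast_eq_zero_iff] at h'
    exact hp2 ((Nat.prime_dvd_prime_iff_eq hp Nat.prime_two).1 h')
  have hfin : Finite (ResidueField A) :=
    Nat.finite_of_card_ne_zero (by rw [hcard]; exact hp.ne_zero)
  have hpm : (p : A) ∈ maximalIdeal A := by
    have h3 : ((Nat.card (ResidueField A) : ℕ) : ResidueField A) = 0 := by
      have : Fintype (ResidueField A) := Fintype.ofFinite _
      rw [Nat.card_eq_fintype_card]
      exact FiniteField.cast_card_eq_zero _
    rw [hcard] at h3
    rw [← residue_eq_zero_iff, map_natCast]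
    exact h3
  have he : 1 ≤ e := by
    rcases Nat.eq_zero_or_pos e with h | h
    · rw [h, zero_add, pow_one] at h1
      exact absurd hpm h1
    · exact h
  have hchar : CharP (ResidueField A) p := TH831.OE.charP_res hp hpm
  set φ := ZMod.castHom (dvd_refl p) (ResidueField A) with hφ
  have hbij : Function.Bijective φ := by
    have : Fintype (ResidueField A) := Fintype.ofFinite _
    exact ZMod.castHom_bijective _ (by rw [← Nat.card_eq_fintype_card, hcard])
  set E : ZMod p ≃+* ResidueField A := RingEquiv.ofBijective φ hbij with hE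
  have hEφ : ∀ x, E x = φ x := fun _ => rfl
  have hEs : ∀ x, E.symm (φ x) = x := fun x => by rw [← hEφ, RingEquiv.symm_apply_apply]
  set S : Finset ℕ := Finset.univ.image l with hS
  have hmS : ∀ {q : ℕ}, q ∈ S ↔ ∃ i, l i = q := by
    intro q
    rw [hS, Finset.mem_image]
    exact ⟨fun ⟨i, _, h⟩ => ⟨i, h⟩, fun ⟨i, h⟩ => ⟨i, Finset.mem_univ _, h⟩⟩
  have hTame : Tame p S = S := by
    unfold Tame
    rw [Finset.filter_true_of_mem]
    intro q hq
    obtain ⟨i, rfl⟩ := hmS.1 hq
    exact hpl i
  have hpS : p ∉ S := by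
    intro h
    obtain ⟨i, hi⟩ := hmS.1 h
    exact hnep (hl i) (hpl i) hi
  have hsum : ∀ {M : Type} [AddCommMonoid M] (g : ℕ → M), ∑ j ∈ S, g j = ∑ j, g (l j) := by
    intro M _ g
    rw [hS, Finset.sum_image fun a _ b _ h => hli h]
  -- unramified outside `S`
  have hur' : Pool.Agent.Results.MP_f68ac8_nt.RankTwoWeightZero.UnramifiedOutside S ρ := by
    intro P hP hPS τ hτ
    obtain ⟨q, hq, hqP⟩ := Pool.Agent.N829.PW.exists_prime_mem P hP
    have hqS : q ∉ S := fun h => hPS q h hqP
    by_cases hqp : q = p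
    · exact hur P hP q hq hqP (Or.inl hqp) τ hτ
    by_cases hd : p ∣ q - 1
    · exact hur P hP q hq hqP (Or.inr ⟨hd, hqS⟩) τ hτ
    · have hnm := Pool.Agent.N829.PW.nm_rat hP hq hqP
      refine Pool.Agent.U419.RT.unram hpm
        (fun i => Pool.Agent.TH831.NA.cts_memN hA hρ i) (fun g => hres g) hP
        (fun h => hqp (Pool.Agent.N829.PW.prime_unique hP hq hp hqP h)) ?_ hτ
      rw [hnm]
      exact hd
  have hnt : ∀ q ∈ Tame p S, ∃ x, χ q x ≠ 1 := by
    intro q hq
    rw [hTame] at hq
    obtain ⟨i, rfl⟩ := hmS.1 hq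
    exact (hχ _ (hl i) (hpl i)).1
  have hNP : NoPair (ResidueField A) p S χ := by
    unfold NoPair
    rw [hTame]
    intro x y hxy hx hy
    by_contra hcon
    push Not at hcon
    obtain ⟨⟨a, ha, hxa⟩, ⟨b, hb, hyb⟩⟩ := hcon
    obtain ⟨a, rfl⟩ := hmS.1 ha
    obtain ⟨b, rfl⟩ := hmS.1 hb
    apply hG
    left
    have hsl : ∀ (z : ℕ → ResidueField A) (i : Fin k),
        ∑ j ∈ S, linking (ResidueField A) j (l i) (χ j) * z j = 0 →
          ∑ j, (dat χ l i).2 j * E.symm (z (l j)) = 0 := by
      intro z i h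
      rw [hsum] at h
      have h3 := congrArg E.symm h
      rw [map_sum, map_zero] at h3
      rw [← h3]
      refine Finset.sum_congr rfl fun j _ => ?_
      rw [map_mul, linking_lk', hEs]
      rfl
    have hsy : ∀ z : ResidueField A, E.symm z ≠ 0 → z ≠ 0 := by
      rintro z hz rfl
      exact hz (map_zero _)
    refine ⟨fun i => E.symm (x (l i)), fun i => E.symm (y (l i)), ?_, ?_, ?_, ?_, ?_⟩
    · intro h
      have h3 : E.symm (x (l a)) = 0 := congrFun h a
      exact hxa ((map_eq_zero_iff E.symm E.symm.injective).1 h3)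
    · intro h
      have h3 : E.symm (y (l b)) = 0 := congrFun h b
      exact hyb ((map_eq_zero_iff E.symm E.symm.injective).1 h3)
    · intro i
      show E.symm (x (l i)) * E.symm (y (l i)) = 0
      rw [← map_mul, hxy _ (hmS.2 ⟨i, rfl⟩), map_zero]
    · intro i hi
      exact hsl y i ((mul_eq_zero.1 (hx _ (hmS.2 ⟨i, rfl⟩))).resolve_left (hsy _ hi))
    · intro i hi
      exact hsl x i ((mul_eq_zero.1 (hy _ (hmS.2 ⟨i, rfl⟩))).resolve_left (hsy _ hi))
  have hNT : ∀ r : ℕ, NoTuple (ResidueField A) p r S χ := by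
    intro r
    unfold NoTuple
    rw [hTame]
    intro T hsq hz hrel
    by_contra hno
    set Φ : Matrix (Fin 2) (Fin 2) (ResidueField A) →+* Matrix (Fin 2) (Fin 2) (ZMod p) :=
      E.symm.toRingHom.mapMatrix with hΦ
    have hΦs : ∀ (c : ResidueField A) (M : Matrix (Fin 2) (Fin 2) (ResidueField A)),
        Φ (c • M) = E.symm c • Φ M := by
      intro c M
      ext i j
      show E.symm (c * M i j) = E.symm c * E.symm (M i j)
      rw [map_mul]
    have hΦ0 : ∀ M, Φ M ≠ 0 → M ≠ 0 := by
      rintro M hM rfl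
      exact hM (map_zero _)
    set T' : Fin k → Matrix (Fin 2) (Fin 2) (ZMod p) := fun i => Φ (T (l i)) with hT'
    have hdv : ∀ i, T' i ≠ 0 → p ^ r ∣ l i - 1 := by
      intro i hi
      by_contra hcon
      exact hΦ0 _ hi (hz _ (hmS.2 ⟨i, rfl⟩) hcon)
    have hrel' : ∀ i, T' i ≠ 0 → cm (fr (dat χ l i).2 T') (T' i) =
        (((l i - 1) / p ^ r : ℕ) : ZMod p) • T' i := by
      intro i hi
      have h3 := hrel _ (hmS.2 ⟨i, rfl⟩) (hdv i hi)
      rw [hsum] at h3
      have h4 := congrArg Φ h3
      rw [map_sub, map_mul, map_mul, map_sum, hΦs, map_natCast] at h4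
      have h5 : ∑ j, Φ (linking (ResidueField A) (l j) (l i) (χ (l j)) • T (l j)) =
          fr (dat χ l i).2 T' := by
        unfold fr
        refine Finset.sum_congr rfl fun j _ => ?_
        rw [hΦs, linking_lk', hEs]
        rfl
      rw [h5] at h4
      exact h4
    have hT2 : ∀ i, T' i * T' i = 0 := by
      intro i
      show Φ (T (l i)) * Φ (T (l i)) = 0
      rw [← map_mul, hsq _ (hmS.2 ⟨i, rfl⟩), map_zero]
    have hno' : ¬ ∃ w : Fin 2 → ZMod p, w ≠ 0 ∧ ∀ i, (T' i).mulVec w = 0 := by
      rintro ⟨w, hw0, hw⟩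
      apply hno
      refine ⟨fun i => E (w i), ?_, ?_⟩
      · intro h
        apply hw0
        funext i
        exact (map_eq_zero_iff E E.injective).1 (congrFun h i)
      · intro q hq
        obtain ⟨i, rfl⟩ := hmS.1 hq
        have h3 := hw i
        funext a
        have h4 : ∑ b, E.symm (T (l i) a b) * w b = 0 := congrFun h3 a
        have h5 := congrArg E h4
        rw [map_sum, map_zero] at h5
        show ∑ b, T (l i) a b * E (w b) = 0
        rw [← h5]
        refine Finset.sum_congr rfl fun b _ => ?_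
        rw [map_mul, RingEquiv.apply_symm_apply]
    rcases two_dir h2 hT2 hno' hrel' with h3 | h3
    · apply hG
      right
      have hlv : ∀ i, (dat χ l i).1 = (((l i - 1) / p : ℕ) : ZMod p) := fun i => rfl
      rcases Nat.lt_trichotomy r 1 with hr | hr | hr
      · have hr0 : r = 0 := by omega
        refine ⟨0, T', hT2, h3, fun i hi => ⟨_, Or.inl ⟨rfl, ?_⟩, hrel' i hi⟩⟩
        rw [hr0, pow_zero, Nat.div_one, ZMod.natCast_eq_zero_iff]
        exact hpl i
      · refine ⟨1, T', hT2, h3, fun i hi => ⟨_, Or.inr (Or.inl ⟨rfl, ?_⟩), hrel' i hi⟩⟩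
        rw [hr, pow_one, hlv]
      · refine ⟨2, T', hT2, h3, fun i hi => ⟨_, Or.inr (Or.inr ⟨rfl, ?_⟩), hrel' i hi⟩⟩
        rw [hlv, ZMod.natCast_eq_zero_iff]
        have h4 : p * p ∣ l i - 1 := by
          have h5 : p ^ 2 ∣ p ^ r := pow_dvd_pow p (by omega)
          rw [← pow_two]
          exact h5.trans (hdv i hi)
        exact (Nat.dvd_div_iff_mul_dvd (hpl i)).2 h4
    · exact hG (Or.inl h3)
  have hres' : Pool.Agent.Results.MP_f68ac8_nt.RankTwoWeightZero.ResiduallyUnipotent ρ := hres
  refine (Pool.Agent.Results.MP_f68ac8_nt.RankTwoWeightZero.result p hp2 S (fun q hq => by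
    obtain ⟨i, rfl⟩ := hmS.1 hq
    exact hl i) A hA hfin e he h0 h1 ρ hρ hur' (fun h => absurd h hpS) hres').2.2 hpS
      (Or.inr ⟨χ, hnt, hNP, fun r _ => hNT r⟩) ?_
  rcases hcond with h | h | h
  · exact Or.inl h
  · exact Or.inr (Or.inl h)
  · refine Or.inr (Or.inr ?_)
    intro q hq P hP hqP τ hτ
    rw [hTame] at hq
    exact h P hP q hq hqP τ hτ

end

/-- The bound for the proportion of the exceptional tuples. -/
noncomputable def bound (p : ℝ) (k : ℕ) : ℝ :=
  ((3 - 2 / p) ^ k - 2 * (2 - 1 / p) ^ k + 1) / (2 * (p - 1) ^ 2) +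
    3 * (2 ^ k - 1 - k - k.choose 2) / (p * (p ^ 2 - 1))

theorem main (p : ℕ) [Fact p.Prime] (hp2 : p ≠ 2) (k : ℕ) :
    1 - bound p k ≤ LowerShare p (OnlyTrivial p) k ∅ := by
  classical
  have hp : p.Prime := Fact.out
  obtain ⟨χ, hχ, -⟩ := Pool.Agent.Q202.QT.extend (p := p) (fun _ => 1) ∅
    (fun j hj => absurd hj (Set.notMem_empty j))
  have h2 : (2 : ZMod p) ≠ 0 := by
    intro h
    have h' : ((2 : ℕ) : ZMod p) = 0 := by exact_mod_cast h
    rw [ZMod.natCast_eq_zero_iff] at h'
    exact hp2 ((Nat.prime_dvd_prime_iff_eq hp Nat.prime_two).1 h')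
  have h := Pool.Agent.U419.RT.share_ge hp2 χ hχ (OnlyTrivial p) (crit hp2 χ hχ) k 0 Fin.elim0
    (fun i => i.elim0) (fun i => i.elim0) (fun i => i.elim0)
  have himg : Finset.univ.image (Fin.elim0 : Fin 0 → ℕ) = ∅ := by
    rw [Finset.univ_eq_empty, Finset.image_empty]
  rw [himg] at h
  rw [share_eq]
  refine le_trans ?_ h
  have h3 : (Pool.Agent.U419.RT.Nb k 0 (Pool.Agent.U419.RT.dat χ (Fin.elim0 : Fin 0 → ℕ)) : ℝ) ≤
      (((Pool.Agent.U419.RT.Z (ZMod p) k).filter fun D => Pool.Agent.U419.RT.Bad D).card : ℝ) := by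
    refine Nat.cast_le.2 (le_trans ?_ (Pool.Agent.U419.RT.Nb_sum k 0 k (by omega)))
    exact Finset.single_le_sum (f := fun D => Pool.Agent.U419.RT.Nb k 0 D) (fun _ _ => Nat.zero_le _)
      (Pool.Agent.U419.RT.mem_Z.2 fun i => i.elim0)
  have h4 := Pool.Agent.U419.RT.bad_card (F := ZMod p) (k := k) h2
  rw [ZMod.card] at h4
  have hp0 : (0 : ℝ) < p := by exact_mod_cast hp.pos
  have htot : (Pool.Agent.U419.RT.tot p k 0 : ℝ) = (p : ℝ) ^ (k * k) := by
    unfold Pool.Agent.U419.RT.tot
    rw [mul_zero, zero_mul, add_zero, pow_two]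
    push_cast
    rfl
  rw [htot]
  have h5 : (Pool.Agent.U419.RT.Nb k 0 (Pool.Agent.U419.RT.dat χ (Fin.elim0 : Fin 0 → ℕ)) : ℝ) /
      (p : ℝ) ^ (k * k) ≤ bound p k := by
    rw [div_le_iff₀ (by positivity)]
    exact h3.trans h4
  linarith

/-- **Two-dimensional representations unramified at `p`, for most tuples of tame primes.** -/
theorem result (p : ℕ) [Fact p.Prime] (hp2 : p ≠ 2) (k : ℕ) :
    1 - bound p k ≤ LowerShare p (OnlyTrivial p) k ∅ ∧
      (5 ≤ p → 1 - 3 ^ k / (2 * (p : ℝ) ^ 2) ≤ LowerShare p (OnlyTrivial p) k ∅) := by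
  have h := main p hp2 k
  refine ⟨h, fun hp5 => le_trans ?_ h⟩
  have h5 : (5 : ℝ) ≤ p := by exact_mod_cast hp5
  exact sub_le_sub_left (Pool.Agent.U419.RT.exc_le h5 k) 1

end Pool.Agent.Results.MP_f68ac8_nt.RankTwoTuples
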